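import Pool.Agent.X205.CE.Basic

set_option autoImplicit false

/-! The property `DPS` passes to countable `ℓ_1`-sums. -/

namespace Pool.Agent.X205.CE

open Filter Topology

universe u

theorem partial_le_norm {E : ℕ → Type u} [∀ n, NormedAddCommGroup (E n)] (z : lp E 1) (n : ℕ) :
    ∑ l ∈ Finset.range n, ‖z l‖ ≤ ‖z‖ := by
  have h := lp.sum_rpow_le_norm_rpow (p := 1) (by simp) z (Finset.range n)
  simpa using h

theorem DPS.lp_one {E : ℕ → Type u} [∀ n, NormedAddCommGroup (E n)] [∀ n, NormedSpace ℝ (E n)]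
    (h : ∀ n, DPS (E n)) : DPS (lp E 1) := by
  let sg : ∀ l, E l →L[ℝ] lp E 1 := fun l => lp.singleContinuousLinearMap ℝ E 1 l
  let ev : ∀ l, lp E 1 →L[ℝ] E l := fun l => lp.evalCLM ℝ E 1 l
  let D : ℕ → (lp E 1 →L[ℝ] lp E 1) := fun n => ∑ l ∈ Finset.range n, (sg l).comp (ev l)
  have hDz : ∀ n z, D n z = ∑ l ∈ Finset.range n, lp.single 1 l (z l) := by
    intro n z
    show (∑ l ∈ Finset.range n, (sg l).comp (ev l)) z = _
    rw [sum_apply]
    rfl
  refine gliding D ?_ 1 ?_ ?_
  · intro z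
    have h1 := (lp.hasSum_single (p := 1) ENNReal.one_ne_top z).tendsto_sum_nat
    simpa only [hDz] using h1
  · intro ν f K hν hf J z
    have hK : 0 ≤ K := (norm_nonneg _).trans (hf 0)
    set S : ℕ → ℝ := fun n => ∑ l ∈ Finset.range n, ‖z l‖ with hS
    have h1 : ∀ i, |f i (D (ν (i + 1)) z - D (ν i) z)| ≤ K * (S (ν (i + 1)) - S (ν i)) := by
      intro i
      have h2 : ν i ≤ ν (i + 1) := (hν (Nat.lt_succ_self i)).le
      have h3 : ‖D (ν (i + 1)) z - D (ν i) z‖ ≤ S (ν (i + 1)) - S (ν i) := by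
        rw [hDz, hDz, hS, ← Finset.sum_Ico_eq_sub _ h2, ← Finset.sum_Ico_eq_sub _ h2]
        refine (norm_sum_le _ _).trans (Finset.sum_le_sum fun l _ => ?_)
        rw [lp.norm_single one_pos]
      calc |f i (D (ν (i + 1)) z - D (ν i) z)| ≤ ‖f i‖ * ‖D (ν (i + 1)) z - D (ν i) z‖ :=
            (f i).le_opNorm _
        _ ≤ K * (S (ν (i + 1)) - S (ν i)) := mul_le_mul (hf i) h3 (norm_nonneg _) hK
    obtain ⟨N, hN⟩ : ∃ N, J ⊆ Finset.range N := J.exists_nat_subset_range
    have hmono : Monotone S := monotone_nat_of_le_succ fun n => by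
      rw [hS]
      simp only [Finset.sum_range_succ]
      linarith [norm_nonneg (z n)]
    calc ∑ i ∈ J, |f i (D (ν (i + 1)) z - D (ν i) z)|
        ≤ ∑ i ∈ Finset.range N, |f i (D (ν (i + 1)) z - D (ν i) z)| :=
          Finset.sum_le_sum_of_subset_of_nonneg hN fun _ _ _ => abs_nonneg _
      _ ≤ ∑ i ∈ Finset.range N, K * (S (ν (i + 1)) - S (ν i)) :=
          Finset.sum_le_sum fun i _ => h1 i
      _ = K * (S (ν N) - S (ν 0)) := by
          rw [← Finset.mul_sum, Finset.sum_range_sub (fun i => S (ν i))]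
      _ ≤ K * ‖z‖ := by
          refine mul_le_mul_of_nonneg_left ?_ hK
          have h4 : 0 ≤ S (ν 0) := Finset.sum_nonneg fun _ _ => norm_nonneg _
          have h5 : S (ν N) ≤ ‖z‖ := partial_le_norm z (ν N)
          linarith
      _ = 1 * K * ‖z‖ := by ring
  · intro n m f δ hm hf hδ hh
    rcases Nat.eq_zero_or_pos n with hn | hn
    · subst hn
      have := hh 0
      rw [hDz] at this
      simp at this
      linarith
    have hn' : (0 : ℝ) < n := by exact_mod_cast hn
    have h1 : ∀ j, ∃ l ∈ Finset.range n, δ / n ≤ f j (sg l (ev l (m j))) := by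
      intro j
      by_contra hcon
      push Not at hcon
      have h2 : f j (D n (m j)) = ∑ l ∈ Finset.range n, f j (sg l (ev l (m j))) := by
        rw [hDz, map_sum]
        rfl
      have h3 : ∑ l ∈ Finset.range n, f j (sg l (ev l (m j))) < ∑ l ∈ Finset.range n, δ / n :=
        Finset.sum_lt_sum_of_nonempty ⟨0, Finset.mem_range.2 hn⟩ hcon
      rw [Finset.sum_const, Finset.card_range, nsmul_eq_mul, mul_div_cancel₀ _ hn'.ne'] at h3
      have := hh j
      rw [h2] at this
      linarith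
    have h2 : ∃ l, ∃ᶠ j in atTop, δ / n ≤ f j (sg l (ev l (m j))) := by
      by_contra hcon
      push Not at hcon
      have h3 : ∀ᶠ j in atTop, ∀ l ∈ Finset.range n, ¬ δ / n ≤ f j (sg l (ev l (m j))) := by
        rw [Finset.eventually_all]
        intro l _
        exact (hcon l).mono fun j hj => not_le.2 hj
      obtain ⟨j, hj⟩ := h3.exists
      obtain ⟨l, hl, hl2⟩ := h1 j
      exact hj l hl hl2
    obtain ⟨l, hl⟩ := h2
    obtain ⟨φ, hφ, hφ2⟩ := extraction_of_frequently_atTop hl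
    exact (h l).factor (ev l) (sg l) (fun j => m (φ j)) (fun j => f (φ j)) (δ / n)
      (hm.comp hφ.injective) (hf.comp hφ.injective) (by positivity) hφ2

end Pool.Agent.X205.CE
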