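import Mathlib

set_option autoImplicit false

/-!
Sequences all of whose signed sums are small, and the property `DPS` of a Banach space: no such
sequence is bounded below against a sequence of functionals of the same kind.
-/

namespace Pool.Agent.X205.CE

open Filter Topology

section defs

variable {X : Type*} [NormedAddCommGroup X] [NormedSpace ℝ X]

/-- all signed sums of `n` terms are small compared with `n`, for arbitrarily good `n` -/
def SmallSums (x : ℕ → X) : Prop :=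
  ∃ ω : ℕ → ℝ, (∀ ε : ℝ, 0 < ε → ∃ n : ℕ, 0 < n ∧ ω n ≤ ε * n) ∧
    ∀ (J : Finset ℕ) (θ : ℕ → ℝ), (∀ j, |θ j| ≤ 1) → ‖∑ j ∈ J, θ j • x j‖ ≤ ω J.card

theorem SmallSums.bdd {x : ℕ → X} (h : SmallSums x) : ∃ K : ℝ, 0 < K ∧ ∀ j, ‖x j‖ ≤ K := by
  obtain ⟨ω, -, h2⟩ := h
  refine ⟨max (ω 1) 1, lt_max_of_lt_right one_pos, fun j => ?_⟩
  have := h2 {j} (fun _ => 1) (fun _ => by simp)
  rw [Finset.sum_singleton, one_smul, Finset.card_singleton] at this
  exact this.trans (le_max_left _ _)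

theorem SmallSums.comp {x : ℕ → X} (h : SmallSums x) {σ : ℕ → ℕ} (hσ : Function.Injective σ) :
    SmallSums (fun j => x (σ j)) := by
  obtain ⟨ω, h1, h2⟩ := h
  refine ⟨ω, h1, fun J θ hθ => ?_⟩
  have h3 := h2 (J.map ⟨σ, hσ⟩) (Function.extend σ θ 0) (fun j => by
    by_cases hj : ∃ i, σ i = j
    · obtain ⟨i, rfl⟩ := hj
      rw [hσ.extend_apply]
      exact hθ i
    · rw [Function.extend_apply' _ _ _ hj]
      simp)
  rw [Finset.sum_map, Finset.card_map] at h3
  convert h3 using 3 with j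
  rw [Function.Embedding.coeFn_mk, hσ.extend_apply]

theorem SmallSums.map {Y : Type*} [NormedAddCommGroup Y] [NormedSpace ℝ Y] {x : ℕ → X}
    (h : SmallSums x) (A : X →L[ℝ] Y) : SmallSums (fun j => A (x j)) := by
  obtain ⟨ω, h1, h2⟩ := h
  refine ⟨fun n => ‖A‖ * ω n, fun ε hε => ?_, fun J θ hθ => ?_⟩
  · obtain ⟨n, hn, hn2⟩ := h1 (ε / (‖A‖ + 1)) (by positivity)
    refine ⟨n, hn, ?_⟩
    have h3 : 0 ≤ ‖A‖ := norm_nonneg A
    calc ‖A‖ * ω n ≤ ‖A‖ * (ε / (‖A‖ + 1) * n) := mul_le_mul_of_nonneg_left hn2 h3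
      _ = (‖A‖ / (‖A‖ + 1)) * (ε * n) := by ring
      _ ≤ 1 * (ε * n) := by
          refine mul_le_mul_of_nonneg_right ?_ (by positivity)
          rw [div_le_one (by positivity)]
          linarith
      _ = ε * n := one_mul _
  · have h3 : ∑ j ∈ J, θ j • A (x j) = A (∑ j ∈ J, θ j • x j) := by
      rw [map_sum]
      exact Finset.sum_congr rfl fun j _ => (map_smul _ _ _).symm
    rw [h3]
    exact (A.le_opNorm _).trans (mul_le_mul_of_nonneg_left (h2 J θ hθ) (norm_nonneg A))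

theorem SmallSums.precomp {Y : Type*} [NormedAddCommGroup Y] [NormedSpace ℝ Y]
    {f : ℕ → (X →L[ℝ] ℝ)} (h : SmallSums f) (B : Y →L[ℝ] X) :
    SmallSums (fun j => (f j).comp B) :=
  h.map ((ContinuousLinearMap.compL ℝ Y X ℝ).flip B)

/-- the property used: small sums in the space and small sums in the dual are asymptotically
orthogonal -/
def DPS (X : Type*) [NormedAddCommGroup X] [NormedSpace ℝ X] : Prop :=
  ∀ (m : ℕ → X) (f : ℕ → (X →L[ℝ] ℝ)) (δ : ℝ), SmallSums m → SmallSums f → 0 < δ →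
    ¬ ∀ j, δ ≤ f j (m j)

/-- factorisation -/
theorem DPS.factor {Y : Type*} [NormedAddCommGroup Y] [NormedSpace ℝ Y] (hY : DPS Y)
    (A : X →L[ℝ] Y) (B : Y →L[ℝ] X) (m : ℕ → X) (f : ℕ → (X →L[ℝ] ℝ)) (δ : ℝ)
    (hm : SmallSums m) (hf : SmallSums f) (hδ : 0 < δ) : ¬ ∀ j, δ ≤ f j (B (A (m j))) :=
  hY _ _ δ (hm.map A) (hf.precomp B) hδ

theorem DPS.of_factor {Y : Type*} [NormedAddCommGroup Y] [NormedSpace ℝ Y] (hY : DPS Y)
    (A : X →L[ℝ] Y) (B : Y →L[ℝ] X) (h : ∀ x, B (A x) = x) : DPS X := by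
  intro m f δ hm hf hδ hh
  refine hY.factor A B m f δ hm hf hδ fun j => ?_
  rw [h]
  exact hh j

end defs

/-- choice of signs making the off-diagonal part nonnegative -/
theorem signs (a : ℕ → ℕ → ℝ) (J : Finset ℕ) :
    ∃ θ : ℕ → ℝ, (∀ j, |θ j| ≤ 1) ∧ (∀ j, θ j * θ j = 1) ∧
      ∑ i ∈ J, a i i ≤ ∑ i ∈ J, ∑ j ∈ J, θ i * θ j * a i j := by
  induction J using Finset.induction_on with
  | empty => exact ⟨fun _ => 1, fun _ => by simp, fun _ => by simp, by simp⟩
  | insert k J hk ih =>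
    obtain ⟨θ, h1, h2, h3⟩ := ih
    set c : ℝ := ∑ i ∈ J, θ i * (a i k + a k i) with hc
    obtain ⟨s, hs1, hs2, hs3⟩ : ∃ s : ℝ, |s| ≤ 1 ∧ s * s = 1 ∧ 0 ≤ s * c := by
      rcases le_total 0 c with h | h
      · exact ⟨1, by simp, by simp, by simpa using h⟩
      · exact ⟨-1, by simp, by simp, by simpa using h⟩
    refine ⟨Function.update θ k s, fun j => ?_, fun j => ?_, ?_⟩
    · by_cases hj : j = k
      · subst hj; simpa using hs1
      · rw [Function.update_of_ne hj]; exact h1 j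
    · by_cases hj : j = k
      · subst hj; simpa using hs2
      · rw [Function.update_of_ne hj]; exact h2 j
    · have hne : ∀ i ∈ J, i ≠ k := fun i hi h => hk (h ▸ hi)
      have e1 : ∀ i ∈ J, ∑ j ∈ insert k J, Function.update θ k s i * Function.update θ k s j * a i j
          = θ i * s * a i k + ∑ j ∈ J, θ i * θ j * a i j := by
        intro i hi
        rw [Finset.sum_insert hk, Function.update_self, Function.update_of_ne (hne i hi)]
        congr 1
        exact Finset.sum_congr rfl fun j hj => by rw [Function.update_of_ne (hne j hj)]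
      have e2 : ∑ j ∈ insert k J, Function.update θ k s k * Function.update θ k s j * a k j
          = a k k + ∑ j ∈ J, s * θ j * a k j := by
        rw [Finset.sum_insert hk, Function.update_self, hs2, one_mul]
        congr 1
        exact Finset.sum_congr rfl fun j hj => by rw [Function.update_of_ne (hne j hj)]
      rw [Finset.sum_insert hk, Finset.sum_insert hk, e2, Finset.sum_congr rfl e1,
        Finset.sum_add_distrib]
      have e3 : ∑ j ∈ J, s * θ j * a k j + ∑ i ∈ J, θ i * s * a i k = s * c := by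
        rw [hc, Finset.mul_sum, ← Finset.sum_add_distrib]
        exact Finset.sum_congr rfl fun i _ => by ring
      linarith

/-- a sequence with small sums is not bounded below against a weakly unconditionally Cauchy
sequence of functionals -/
theorem no_wuc {X : Type*} [NormedAddCommGroup X] [NormedSpace ℝ X] (m : ℕ → X)
    (h : ℕ → (X →L[ℝ] ℝ)) (hm : SmallSums m) (C δ : ℝ) (hδ : 0 < δ)
    (hC : ∀ (J : Finset ℕ) (z : X), ∑ i ∈ J, |h i z| ≤ C * ‖z‖) :
    ¬ ∀ j, δ ≤ h j (m j) := by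
  intro hh
  obtain ⟨ω, h1, h2⟩ := hm
  have hC0 : 0 < |C| + 1 := by positivity
  obtain ⟨n, hn, hn2⟩ := h1 (δ / 2 / (|C| + 1)) (by positivity)
  obtain ⟨θ, t1, -, t3⟩ := signs (fun i j => h i (m j)) (Finset.range n)
  set z := ∑ j ∈ Finset.range n, θ j • m j with hz
  have h3 : ∑ i ∈ Finset.range n, ∑ j ∈ Finset.range n, θ i * θ j * h i (m j) =
      ∑ i ∈ Finset.range n, θ i * h i z := by
    refine Finset.sum_congr rfl fun i _ => ?_
    rw [hz, map_sum, Finset.mul_sum]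
    exact Finset.sum_congr rfl fun j _ => by rw [map_smul, smul_eq_mul]; ring
  have h4 : ∑ i ∈ Finset.range n, θ i * h i z ≤ ∑ i ∈ Finset.range n, |h i z| := by
    refine Finset.sum_le_sum fun i _ => ?_
    calc θ i * h i z ≤ |θ i * h i z| := le_abs_self _
      _ = |θ i| * |h i z| := abs_mul _ _
      _ ≤ 1 * |h i z| := mul_le_mul_of_nonneg_right (t1 i) (abs_nonneg _)
      _ = |h i z| := one_mul _
  have h5 : ∑ i ∈ Finset.range n, |h i z| ≤ (|C| + 1) * ω n := by
    have h6 := h2 (Finset.range n) θ t1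
    rw [Finset.card_range] at h6
    have h7 : 0 ≤ ‖z‖ := norm_nonneg z
    have h8 : C ≤ |C| + 1 := (le_abs_self C).trans (by linarith)
    calc _ ≤ C * ‖z‖ := hC _ z
      _ ≤ (|C| + 1) * ‖z‖ := mul_le_mul_of_nonneg_right h8 h7
      _ ≤ (|C| + 1) * ω n := mul_le_mul_of_nonneg_left h6 hC0.le
  have h6 : (n : ℝ) * δ ≤ ∑ i ∈ Finset.range n, h i (m i) := by
    have : ∑ i ∈ Finset.range n, δ ≤ ∑ i ∈ Finset.range n, h i (m i) :=
      Finset.sum_le_sum fun i _ => hh i
    simpa using this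
  have h7 : (|C| + 1) * ω n ≤ n * (δ / 2) := by
    calc (|C| + 1) * ω n ≤ (|C| + 1) * (δ / 2 / (|C| + 1) * n) :=
          mul_le_mul_of_nonneg_left hn2 hC0.le
      _ = n * (δ / 2) := by field_simp
  have hn' : (0 : ℝ) < n := by exact_mod_cast hn
  have h8 : (n : ℝ) * δ ≤ n * (δ / 2) := by linarith
  have h9 := le_of_mul_le_mul_left h8 hn'
  linarith

/-- gliding hump -/
theorem gliding {X : Type*} [NormedAddCommGroup X] [NormedSpace ℝ X] (D : ℕ → (X →L[ℝ] X))
    (hD : ∀ z, Tendsto (fun n => D n z) atTop (𝓝 z)) (C : ℝ)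
    (hC : ∀ (ν : ℕ → ℕ) (f : ℕ → (X →L[ℝ] ℝ)) (K : ℝ), StrictMono ν → (∀ i, ‖f i‖ ≤ K) →
      ∀ (J : Finset ℕ) (z : X),
        ∑ i ∈ J, |f i (D (ν (i + 1)) z - D (ν i) z)| ≤ C * K * ‖z‖)
    (hn : ∀ (n : ℕ) (m : ℕ → X) (f : ℕ → (X →L[ℝ] ℝ)) (δ : ℝ), SmallSums m → SmallSums f →
      0 < δ → ¬ ∀ j, δ ≤ f j (D n (m j))) : DPS X := by
  intro m f δ hm hf hδ hh
  obtain ⟨K, hK0, hK⟩ := hf.bdd
  have ev : ∀ n, ∀ᶠ j in atTop, f j (D n (m j)) < δ / 2 := by
    intro n
    by_contra hcon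
    have h1 : ∃ᶠ j in atTop, δ / 2 ≤ f j (D n (m j)) := by
      intro h2
      exact hcon (h2.mono fun j hj => lt_of_not_ge hj)
    obtain ⟨φ, hφ, hφ2⟩ := extraction_of_frequently_atTop h1
    exact hn n (fun j => m (φ j)) (fun j => f (φ j)) (δ / 2) (hm.comp hφ.injective)
      (hf.comp hφ.injective) (by positivity) hφ2
  have step : ∀ s : ℕ × ℕ, ∃ s' : ℕ × ℕ, s.1 < s'.1 ∧ s.2 < s'.2 ∧
      δ / 4 ≤ f s'.2 (D s'.1 (m s'.2) - D s.1 (m s'.2)) := by
    rintro ⟨ν, j⟩
    obtain ⟨j', hj1, hj2⟩ := ((ev ν).and (eventually_gt_atTop j)).exists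
    have h1 : Tendsto (fun n => f j' (D n (m j'))) atTop (𝓝 (f j' (m j'))) :=
      ((f j').continuous.tendsto _).comp (hD (m j'))
    have h2 : ∀ᶠ n in atTop, f j' (m j') - δ / 4 < f j' (D n (m j')) :=
      h1.eventually (lt_mem_nhds (by linarith))
    obtain ⟨ν', hν1, hν2⟩ := (h2.and (eventually_gt_atTop ν)).exists
    refine ⟨(ν', j'), hν2, hj2, ?_⟩
    rw [map_sub]
    have := hh j'
    show δ / 4 ≤ f j' (D ν' (m j')) - f j' (D ν (m j'))
    linarith
  choose nx hnx1 hnx2 hnx3 using step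
  let s : ℕ → ℕ × ℕ := fun i => Nat.rec (0, 0) (fun _ p => nx p) i
  have hs : ∀ i, s (i + 1) = nx (s i) := fun i => rfl
  have hν : StrictMono fun i => (s i).1 := strictMono_nat_of_lt_succ fun i => by
    rw [hs]; exact hnx1 _
  have hj : StrictMono fun i => (s i).2 := strictMono_nat_of_lt_succ fun i => by
    rw [hs]; exact hnx2 _
  have hj' : Function.Injective fun i => (s (i + 1)).2 :=
    hj.injective.comp (add_left_injective 1)
  refine no_wuc (fun i => m (s (i + 1)).2)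
    (fun i => (f (s (i + 1)).2).comp (D (s (i + 1)).1 - D (s i).1)) (hm.comp hj') (C * K) (δ / 4)
    (by positivity) ?_ ?_
  · intro J z
    exact hC (fun i => (s i).1) (fun i => f (s (i + 1)).2) K hν (fun i => hK _) J z
  · intro i
    show δ / 4 ≤ f (s (i + 1)).2 (D (s (i + 1)).1 (m (s (i + 1)).2) - D (s i).1 (m (s (i + 1)).2))
    rw [hs]
    exact hnx3 (s i)

end Pool.Agent.X205.CE
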