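import Pool.Agent.X205.CE.Step

set_option autoImplicit false
set_option linter.unusedSectionVars false

/-! The property `DPS` for Lipschitz-free spaces over compact convex subsets of `ℝ^k`. -/

namespace Pool.Agent.X205.CE

open Filter Topology MeasureTheory
open scoped ContDiff
open Pool.Agent.TH326.Free (IsFree)

theorem step {k : ℕ} {B : Set (Fin k → ℝ)} (hBc : IsCompact B) (hBx : Convex ℝ B)
    {F : Type*} [NormedAddCommGroup F] [NormedSpace ℝ F] {x0 : B} {δ : B → F} (h : IsFree x0 δ)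
    (r : (Fin k → ℝ) → B) (hr : ∀ x y, ‖(r x : Fin k → ℝ) - r y‖ ≤ ‖x - y‖)
    (hr2 : ∀ x : B, r x = x)
    {m : ℕ → F} {f : ℕ → (F →L[ℝ] ℝ)} (hf : SmallSums f) {Kf δ₀ Cm ε₀ : ℝ} (hKf : 0 < Kf)
    (hKf2 : Kf * (k + 1) ≤ 1 / 4) (hfK : ∀ j, ‖f j‖ ≤ Kf) (hδ₀ : 0 < δ₀)
    (hfm : ∀ j, δ₀ ≤ f j (m j)) (hCm : 0 < Cm)
    (m' : ℕ → F) (N : ℕ → ((Fin k → ℝ) → ℝ) → ℝ) (C : ℕ → ℝ) (hC0 : ∀ j, 0 ≤ C j)
    (hctrl : ∀ j, Ctrl B δ (m' j) (N j) Cm (C j)) (hmm : ∀ j, ‖m j - m' j‖ ≤ ε₀)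
    (hε₀ : 3 * ε₀ ≤ δ₀ / 8)
    (ψ : (Fin k → ℝ) → ℝ) (hψ : ContDiff ℝ ∞ ψ) (hψ0 : ∀ x, 0 ≤ ψ x) (hψ1 : ∀ x, ψ x ≤ 1)
    (J : Set ℕ) (hJ : J.Infinite) {η : ℝ} (hη : η ≤ δ₀ / 8)
    (hN : ∀ j ∈ J, N j (fun x => 1 - ψ x) ≤ η)
    {ε : ℝ} (hε : 0 < ε) (hε1 : ε ≤ 1) (hεC : ε * Cm ≤ δ₀ / 8) :
    ∃ j ∈ J, ∃ (G a : (Fin k → ℝ) → ℝ) (hh : F →L[ℝ] ℝ), ContDiff ℝ ∞ G ∧ ContDiff ℝ ∞ a ∧
      (∀ x, 0 ≤ a x) ∧ (∀ x, a x ≤ 1) ∧ (∀ x, ‖fderiv ℝ G x‖ ≤ a x) ∧
      (∀ x ∈ B, |G x| * ‖fderiv ℝ ψ x‖ ≤ ε) ∧ (∀ x : B, hh (δ x) = ψ x * G x) ∧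
      δ₀ / 4 ≤ hh (m j) ∧ {j' | j' ∈ J ∧ j < j' ∧ N j' a ≤ ε}.Infinite := by
  have hk : (0 : ℝ) ≤ k := Nat.cast_nonneg k
  -- the functions
  set φ : ℕ → (Fin k → ℝ) → ℝ := fun j x => f j (δ (r x)) with hφdef
  have hδr : ∀ x y, ‖δ (r x) - δ (r y)‖ ≤ ‖x - y‖ := fun x y => by
    refine (h.lip _ _).trans ?_
    rw [Subtype.dist_eq, dist_eq_norm]
    exact hr x y
  have hφ : ∀ j, Lpz Kf (φ j) := fun j x y => by
    show ‖f j (δ (r x)) - f j (δ (r y))‖ ≤ _
    rw [← map_sub]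
    exact ((f j).le_opNorm _).trans (mul_le_mul (hfK j) (hδr x y) (norm_nonneg _) hKf.le)
  have hφ0 : ∀ j, φ j x0 = 0 := fun j => by
    show f j (δ (r x0)) = 0
    rw [hr2, h.base, map_zero]
  obtain ⟨S, hS⟩ := hBc.exists_bound_of_continuousOn
    (hψ.continuous_fderiv (by simp)).continuousOn
  have hS0 : 0 ≤ S := (norm_nonneg _).trans (hS x0 x0.2)
  set ε₁ : ℝ := ε / (S + 1) with hε₁
  have hε₁0 : 0 < ε₁ := by positivity
  have hev := unif_small hBc hKf hφ (fun x _ ε hε => hf.tendsto_apply (δ (r x)) hε)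
    (show 0 < ε₁ / 2 by positivity)
  obtain ⟨j₁, hj₁⟩ := eventually_atTop.1 hev
  obtain ⟨om, w1, w2⟩ := hf
  obtain ⟨n, hn, hn2⟩ := w1 (ε / (2 * (k + 1) ^ 2 * Cm)) (by positivity)
  have hJ1 : (J ∩ {j | j₁ ≤ j}).Infinite := by
    have : J ⊆ (J ∩ {j | j₁ ≤ j}) ∪ {j | j < j₁} := fun j hj => by
      rcases le_or_gt j₁ j with h | h
      · exact Or.inl ⟨hj, h⟩
      · exact Or.inr h
    intro hfin
    exact hJ ((hfin.union (Set.finite_lt_nat j₁)).subset this)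
  obtain ⟨Q, hQ1, hQ2⟩ := hJ1.exists_subset_card_eq n
  have hn' : (0 : ℝ) < n := by exact_mod_cast hn
  have hQne : Q.Nonempty := Finset.card_pos.1 (by rw [hQ2]; exact hn)
  set T : ℝ := ∑ j ∈ Q, C j + 1 with hT
  have hT0 : 0 < T := by
    have : 0 ≤ ∑ j ∈ Q, C j := Finset.sum_nonneg fun j _ => hC0 j
    linarith
  set t : ℝ := min (ε₁ / (4 * Kf)) (δ₀ / (16 * Kf * T)) with ht
  have ht0 : 0 < t := lt_min (by positivity) (by positivity)
  have ht1 : Kf * t ≤ ε₁ / 4 := by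
    calc Kf * t ≤ Kf * (ε₁ / (4 * Kf)) := mul_le_mul_of_nonneg_left (min_le_left _ _) hKf.le
      _ = ε₁ / 4 := by field_simp
  have ht2 : ∀ j ∈ Q, 2 * (Kf * t) * C j ≤ δ₀ / 8 := by
    intro j hj
    have h1 : C j ≤ T := by
      have := Finset.single_le_sum (f := C) (fun i _ => hC0 i) hj
      linarith
    have h2 : Kf * t ≤ δ₀ / (16 * T) := by
      calc Kf * t ≤ Kf * (δ₀ / (16 * Kf * T)) :=
            mul_le_mul_of_nonneg_left (min_le_right _ _) hKf.le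
        _ = δ₀ / (16 * T) := by field_simp
    calc 2 * (Kf * t) * C j ≤ 2 * (δ₀ / (16 * T)) * T := by
          refine mul_le_mul (by linarith) h1 (hC0 j) (by positivity)
      _ = δ₀ / 8 := by field_simp; norm_num
  obtain ⟨g, g1, g2, g3⟩ := exists_moll φ hφ hKf.le ht0
  have gdiff : ∀ j, Differentiable ℝ (g j) := fun j => (g1 j).differentiable (by simp)
  have gK : ∀ j x, ‖fderiv ℝ (g j) x‖ ≤ Kf := by
    intro j x
    refine norm_fderiv_le_of_lip' ℝ hKf.le (Eventually.of_forall fun y => ?_)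
    have h1 := g3 {j} (fun _ => 1) Kf (fun x y => by
      rw [Finset.sum_singleton, one_mul, ← Real.norm_eq_abs]
      exact hφ j x y) y x
    rw [Finset.sum_singleton, one_mul] at h1
    rw [Real.norm_eq_abs]
    exact h1
  have hom : 0 ≤ om n := by
    have := w2 Q (fun _ => 1) (fun _ => by simp)
    rw [hQ2] at this
    exact (norm_nonneg _).trans this
  have gsum : ∀ x v, ∑ j ∈ Q, |fderiv ℝ (g j) x v| ≤ om n * ‖v‖ := by
    refine sum_abs_fderiv_le gdiff Q hom fun θ hθ x y => ?_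
    refine g3 Q θ (om n) (fun x y => ?_) x y
    have h1 : ∑ j ∈ Q, θ j * (φ j x - φ j y) = (∑ j ∈ Q, θ j • f j) (δ (r x) - δ (r y)) := by
      rw [sum_apply]
      exact Finset.sum_congr rfl fun j _ => by rw [smul_apply, smul_eq_mul, map_sub]
    rw [h1, ← Real.norm_eq_abs]
    have h2 := w2 Q θ hθ
    rw [hQ2] at h2
    exact (ContinuousLinearMap.le_opNorm _ _).trans (mul_le_mul h2 (hδr x y) (norm_nonneg _) hom)
  set τ : ℝ := min (1 / 2) (ε / (2 * Cm)) with hτ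
  have hτ0 : 0 < τ := lt_min (by norm_num) (by positivity)
  have hτC : τ * Cm ≤ ε / 2 := by
    calc τ * Cm ≤ ε / (2 * Cm) * Cm := mul_le_mul_of_nonneg_right (min_le_right _ _) hCm.le
      _ = ε / 2 := by field_simp
  set Dj : ℕ → (Fin k → ℝ) → ℝ := fun j x => ∑ i, |fderiv ℝ (g j) x (cv i)| with hDj
  have hDc : ∀ j, Continuous (Dj j) := fun j => by
    refine continuous_finsetSum _ fun i _ => ?_
    exact (((g1 j).continuous_fderiv (by simp)).clm_apply continuous_const).abs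
  have hmc : ∀ j, ContDiff ℝ ∞ (maj (g j) τ) := fun j => maj_contDiff (g1 j) hτ0
  -- selection of `j`
  have sel : ∀ j' ∈ J, ∃ j ∈ Q, N j' (maj (g j) τ) ≤ ε := by
    intro j' _
    by_contra hcon
    push Not at hcon
    have e1 : ∀ j ∈ Q, ε / 2 < (k + 1) * N j' (Dj j) := by
      intro j hj
      have h1 := hcon j hj
      have h2 : N j' (maj (g j) τ) ≤ N j' (fun x => (k + 1) * Dj j x + 1 * (fun _ => τ) x) :=
        (hctrl j').mono _ _ (hmc j).continuous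
          ((continuous_const.mul (hDc j)).add (continuous_const.mul continuous_const)) fun x _ => by
          have := maj_le (g j) hτ0.le x
          simpa using this
      rw [(hctrl j').lin (Dj j) (fun _ => τ) (k + 1) 1 (hDc j) continuous_const, one_mul] at h2
      have h3 := (hctrl j').const τ hτ0.le
      linarith
    have e2 : (n : ℝ) * (ε / 2) < ∑ j ∈ Q, (k + 1) * N j' (Dj j) := by
      have := Finset.sum_lt_sum_of_nonempty hQne e1
      rwa [Finset.sum_const, hQ2, nsmul_eq_mul] at this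
    rw [← Finset.mul_sum, ← (hctrl j').sum Q Dj fun j _ => hDc j] at e2
    have e3 : N j' (fun x => ∑ j ∈ Q, Dj j x) ≤ (k * om n) * Cm := by
      refine ((hctrl j').mono _ (fun _ => k * om n) (continuous_finsetSum _ fun j _ => hDc j)
        continuous_const fun x _ => ?_).trans ((hctrl j').const _ (by positivity))
      show ∑ j ∈ Q, ∑ i, |fderiv ℝ (g j) x (cv i)| ≤ k * om n
      rw [Finset.sum_comm]
      have : ∑ i : Fin k, ∑ j ∈ Q, |fderiv ℝ (g j) x (cv i)| ≤ ∑ i : Fin k, om n :=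
        Finset.sum_le_sum fun i _ => (gsum x (cv i)).trans (mul_le_of_le_one_right hom (norm_cv_le i))
      simpa using this
    have e4 : (k + 1) * ((k * om n) * Cm) ≤ n * (ε / 2) := by
      calc (k + 1) * ((k * om n) * Cm) ≤
            (k + 1) * (((k + 1) * (ε / (2 * (k + 1) ^ 2 * Cm) * n)) * Cm) := by
            refine mul_le_mul_of_nonneg_left (mul_le_mul_of_nonneg_right ?_ hCm.le) (by positivity)
            exact mul_le_mul (by linarith) hn2 hom (by positivity)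
        _ = n * (ε / 2) := by field_simp
    have e5 : ((k : ℝ) + 1) * N j' (fun x => ∑ j ∈ Q, Dj j x) ≤ (k + 1) * ((k * om n) * Cm) :=
      mul_le_mul_of_nonneg_left e3 (by positivity)
    linarith
  obtain ⟨j, hjQ, hjinf⟩ : ∃ j ∈ Q, {j' | j' ∈ J ∧ j < j' ∧ N j' (maj (g j) τ) ≤ ε}.Infinite := by
    by_contra hcon
    push Not at hcon
    have h1 : (⋃ j ∈ (Q : Set ℕ), {j' | j' ∈ J ∧ j < j' ∧ N j' (maj (g j) τ) ≤ ε}).Finite :=
      Q.finite_toSet.biUnion fun j hj => hcon j hj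
    have h2 : J ⊆ (⋃ j ∈ (Q : Set ℕ), {j' | j' ∈ J ∧ j < j' ∧ N j' (maj (g j) τ) ≤ ε}) ∪
        {j' | j' ≤ Q.sup id} := by
      intro j' hj'
      rcases le_or_gt j' (Q.sup id) with h3 | h3
      · exact Or.inr h3
      · left
        obtain ⟨j, hj, hj2⟩ := sel j' hj'
        refine Set.mem_iUnion₂.2 ⟨j, hj, hj', ?_, hj2⟩
        exact lt_of_le_of_lt (Finset.le_sup (f := id) hj) h3
    exact hJ ((h1.union (Set.finite_le_nat _)).subset h2)
  have hjJ : j ∈ J := (hQ1 hjQ).1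
  have hjj : j₁ ≤ j := (hQ1 hjQ).2
  set G : (Fin k → ℝ) → ℝ := fun x => g j x - g j x0 with hG
  have hGc : ContDiff ℝ ∞ G := (g1 j).sub contDiff_const
  have hGd : ∀ x, fderiv ℝ G x = fderiv ℝ (g j) x := fun x => fderiv_sub_const _
  have hGfd : ∀ x, ‖fderiv ℝ G x‖ ≤ maj (g j) τ x := fun x => by
    rw [hGd]; exact norm_fderiv_le_maj _ _ _
  have ha0 : ∀ x, 0 ≤ maj (g j) τ x := fun x => Real.sqrt_nonneg _
  have ha1 : ∀ x, maj (g j) τ x ≤ 1 := fun x =>
    maj_le_one hτ0.le (min_le_left _ _) hKf.le hKf2 x (gK j x)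
  have hGφ : ∀ x, |G x - φ j x| ≤ 2 * (Kf * t) := by
    intro x
    have e1 := g2 j x
    have e2 := g2 j x0
    rw [hφ0, sub_zero] at e2
    have : G x - φ j x = (g j x - φ j x) - g j x0 := by rw [hG]; ring
    rw [this]
    have := abs_sub (g j x - φ j x) (g j x0)
    linarith
  have hGs : ∀ x ∈ B, |G x| ≤ ε₁ := by
    intro x hx
    have e1 := hGφ x
    have e2 := hj₁ j hjj x hx
    have e3 : |G x| ≤ |G x - φ j x| + |φ j x| := by
      have := abs_add_le (G x - φ j x) (φ j x)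
      rwa [sub_add_cancel] at this
    linarith
  have hGψ : ∀ x ∈ B, |G x| * ‖fderiv ℝ ψ x‖ ≤ ε := by
    intro x hx
    calc |G x| * ‖fderiv ℝ ψ x‖ ≤ ε₁ * (S + 1) :=
          mul_le_mul (hGs x hx) ((hS x hx).trans (by linarith)) (norm_nonneg _) hε₁0.le
      _ = ε := by rw [hε₁]; field_simp
  have hψd : Differentiable ℝ ψ := hψ.differentiable (by simp)
  have hGdf : Differentiable ℝ G := hGc.differentiable (by simp)
  -- Lipschitz bounds on `B`
  have lipB : ∀ (u : (Fin k → ℝ) → ℝ) (c : ℝ), Differentiable ℝ u → (∀ x ∈ B, ‖fderiv ℝ u x‖ ≤ c) →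
      ∀ x y : B, |u x - u y| ≤ c * dist x y := by
    intro u c hu hc x y
    have := hBx.norm_image_sub_le_of_norm_fderiv_le (𝕜 := ℝ) (fun z _ => hu z) hc y.2 x.2
    rw [Subtype.dist_eq, dist_eq_norm]
    exact this
  have d1 : ∀ x ∈ B, ‖fderiv ℝ (fun x => ψ x * G x) x‖ ≤ 2 := by
    intro x hx
    have e1 : fderiv ℝ (fun x => ψ x * G x) x = ψ x • fderiv ℝ G x + G x • fderiv ℝ ψ x :=
      fderiv_fun_mul (hψd x) (hGdf x)
    rw [e1]
    calc ‖ψ x • fderiv ℝ G x + G x • fderiv ℝ ψ x‖ ≤ ‖ψ x • fderiv ℝ G x‖ + ‖G x • fderiv ℝ ψ x‖ :=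
          norm_add_le _ _
      _ ≤ 1 * 1 + 1 := by
          rw [norm_smul, norm_smul, Real.norm_of_nonneg (hψ0 x), Real.norm_eq_abs]
          refine add_le_add ?_ ((hGψ x hx).trans hε1)
          exact mul_le_mul (hψ1 x) ((hGfd x).trans (ha1 x)) (norm_nonneg _) zero_le_one
      _ = 2 := by norm_num
  have hG0 : G x0 = 0 := by rw [hG]; simp
  obtain ⟨hh, hh1, hh2⟩ := h.ext 2 (fun x => ψ x * G x) (by norm_num)
    (lipB (fun x => ψ x * G x) 2 (hψd.mul hGdf) d1) (by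
      show ψ x0 * G x0 = 0
      rw [hG0, mul_zero])
  obtain ⟨l1, -, l12⟩ := h.ext 1 (fun x => G x) zero_le_one
    (lipB G 1 hGdf fun x _ => (hGfd x).trans (ha1 x)) hG0
  set l2 : F →L[ℝ] ℝ := l1 - hh with hl2
  have l22 : ∀ x : B, l2 (δ x) = (1 - ψ x) * G x := fun x => by
    rw [hl2, sub_apply, l12, hh2]
    ring
  have hhm : δ₀ / 4 ≤ hh (m j) := by
    have e1 : |hh (m j) - hh (m' j)| ≤ 2 * ε₀ := by
      rw [← map_sub, ← Real.norm_eq_abs]
      exact (hh.le_opNorm _).trans (mul_le_mul hh1 (hmm j) (norm_nonneg _) (by norm_num))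
    have e2 : |f j (m j) - f j (m' j)| ≤ 1 * ε₀ := by
      rw [← map_sub, ← Real.norm_eq_abs]
      have hKf1 : Kf ≤ 1 := by nlinarith
      exact ((f j).le_opNorm _).trans (mul_le_mul ((hfK j).trans hKf1) (hmm j) (norm_nonneg _)
        zero_le_one)
    have e3 : |l2 (m' j)| ≤ N j (fun x => 1 * (1 - ψ x) + ε * (fun _ => (1 : ℝ)) x) := by
      refine (hctrl j).grad (fun x => (1 - ψ x) * G x) _ ?_ ?_ ?_ l2 ?_
      · exact ((contDiff_const.sub hψ).mul hGc).of_le (by exact_mod_cast le_top)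
      · exact ((continuous_const.sub hψ.continuous).const_mul 1).add continuous_const
      · intro x hx
        have e4 : fderiv ℝ (fun x => (1 - ψ x) * G x) x =
            (1 - ψ x) • fderiv ℝ G x + G x • (-fderiv ℝ ψ x) := by
          have hd : DifferentiableAt ℝ (fun x => 1 - ψ x) x :=
            (differentiableAt_const _).sub (hψd x)
          rw [fderiv_fun_mul hd (hGdf x)]
          congr 2
          exact fderiv_const_sub _
        rw [e4]
        calc ‖(1 - ψ x) • fderiv ℝ G x + G x • (-fderiv ℝ ψ x)‖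
            ≤ ‖(1 - ψ x) • fderiv ℝ G x‖ + ‖G x • (-fderiv ℝ ψ x)‖ := norm_add_le _ _
          _ ≤ 1 * (1 - ψ x) + ε * 1 := by
              rw [norm_smul, norm_smul, norm_neg, Real.norm_of_nonneg (by linarith [hψ1 x]),
                Real.norm_eq_abs, mul_one, one_mul]
              refine add_le_add ?_ (hGψ x hx)
              exact mul_le_of_le_one_right (by linarith [hψ1 x]) ((hGfd x).trans (ha1 x))
      · intro x y
        rw [l22, l22]
    rw [(hctrl j).lin (fun x => 1 - ψ x) (fun _ => 1) 1 ε (continuous_const.sub hψ.continuous)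
      continuous_const, one_mul] at e3
    have e4 := (hctrl j).const 1 zero_le_one
    have e5 := hN j hjJ
    have e6 : ε * N j (fun _ => 1) ≤ ε * (1 * Cm) := mul_le_mul_of_nonneg_left e4 hε.le
    have e7 : |(l1 - f j) (m' j)| ≤ C j * (2 * (Kf * t)) := by
      refine (hctrl j).sup _ _ fun x => ?_
      rw [sub_apply, l12]
      have := hGφ x
      have e8 : φ j x = f j (δ x) := by
        show f j (δ (r x)) = _
        rw [hr2]
      rwa [e8] at this
    have e8 := ht2 j hjQ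
    have e9 : l1 (m' j) - hh (m' j) = l2 (m' j) := by rw [hl2, sub_apply]
    rw [sub_apply] at e7
    have e10 := hfm j
    rw [abs_le] at e1 e2 e3 e7
    nlinarith [e1.1, e1.2, e2.1, e2.2, e3.1, e3.2, e7.1, e7.2]
  exact ⟨j, hjJ, G, maj (g j) τ, hh, hGc, hmc j, ha0, ha1, hGfd, hGψ, hh2, hhm, hjinf⟩

end Pool.Agent.X205.CE
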