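import Pool.Agent.X205.CE.Box

set_option autoImplicit false
set_option linter.unusedSectionVars false

/-! The property `DPS` for Lipschitz-free spaces over compact convex subsets of `ℝ^k`. -/

namespace Pool.Agent.X205.CE

open Filter Topology MeasureTheory
open scoped ContDiff
open Pool.Agent.TH326.Free (IsFree)

theorem Ctrl.mono_R {E : Type*} [NormedAddCommGroup E] [NormedSpace ℝ E] {F : Type*}
    [NormedAddCommGroup F] [NormedSpace ℝ F] {B : Set E} {δ : B → F} {m' : F}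
    {N : (E → ℝ) → ℝ} {R R' C : ℝ} (h : Ctrl B δ m' N R C) (hR : R ≤ R') : Ctrl B δ m' N R' C :=
  ⟨h.lin, h.mono, fun c hc => (h.const c hc).trans (mul_le_mul_of_nonneg_left hR hc), h.grad, h.sup⟩

theorem box_dps {k : ℕ} {B : Set (Fin k → ℝ)} (hBc : IsCompact B) (hBx : Convex ℝ B)
    {F : Type*} [NormedAddCommGroup F] [NormedSpace ℝ F] {x0 : B} {δ : B → F} (h : IsFree x0 δ)
    (r : (Fin k → ℝ) → B) (hr : ∀ x y, ‖(r x : Fin k → ℝ) - r y‖ ≤ ‖x - y‖)
    (hr2 : ∀ x : B, r x = x) : DPS F := by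
  intro m f₀ δ₁ hm hf₀ hδ₁ hh₀
  obtain ⟨K, hK0, hK⟩ := hf₀.bdd
  obtain ⟨Km, hKm0, hKm⟩ := hm.bdd
  have hk : (0 : ℝ) ≤ k := Nat.cast_nonneg k
  set c : ℝ := 1 / (4 * (k + 1) * K) with hc
  have hc0 : 0 < c := by positivity
  set f : ℕ → (F →L[ℝ] ℝ) := fun j => c • f₀ j with hfdef
  have hf : SmallSums f := hf₀.map (c • ContinuousLinearMap.id ℝ (F →L[ℝ] ℝ))
  set δ₀ : ℝ := c * δ₁ with hδ₀def
  have hδ₀ : 0 < δ₀ := by positivity
  have hfm : ∀ j, δ₀ ≤ f j (m j) := fun j => by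
    show c * δ₁ ≤ c * f₀ j (m j)
    exact mul_le_mul_of_nonneg_left (hh₀ j) hc0.le
  set Kf : ℝ := 1 / (4 * (k + 1)) with hKfdef
  have hKf : 0 < Kf := by positivity
  have hKf2 : Kf * (k + 1) ≤ 1 / 4 := by
    rw [hKfdef]
    exact (by field_simp : 1 / (4 * ((k:ℝ) + 1)) * (k + 1) = 1 / 4).le
  have hfK : ∀ j, ‖f j‖ ≤ Kf := fun j => by
    show ‖c • f₀ j‖ ≤ Kf
    rw [norm_smul, Real.norm_of_nonneg hc0.le]
    calc c * ‖f₀ j‖ ≤ c * K := mul_le_mul_of_nonneg_left (hK j) hc0.le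
      _ = Kf := by rw [hc, hKfdef]; field_simp
  set Cm : ℝ := Km + 1 with hCmdef
  have hCm : 0 < Cm := by positivity
  set ε₀ : ℝ := δ₀ / 24 with hε₀def
  have hε₀ : 3 * ε₀ ≤ δ₀ / 8 := by rw [hε₀def]; linarith
  choose m' N C hmm hC0 hctrl0 using fun j => exists_ctrl hBx h (m j) (show 0 < ε₀ by positivity)
  have hctrl : ∀ j, Ctrl B δ (m' j) (N j) Cm (C j) := fun j => (hctrl0 j).mono_R (by
    rw [hCmdef]; linarith [hKm j])
  set εt : ℝ := min 1 (δ₀ / 8 / (Cm + 1)) with hεt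
  have hεt0 : 0 < εt := lt_min one_pos (by positivity)
  have hεt1 : εt ≤ 1 := min_le_left _ _
  have hεt2 : εt ≤ δ₀ / 8 := by
    refine (min_le_right _ _).trans (div_le_self (by positivity) (by linarith))
  have hεt3 : εt * Cm ≤ δ₀ / 8 := by
    calc εt * Cm ≤ δ₀ / 8 / (Cm + 1) * Cm := mul_le_mul_of_nonneg_right (min_le_right _ _) hCm.le
      _ = δ₀ / 8 * (Cm / (Cm + 1)) := by ring
      _ ≤ δ₀ / 8 * 1 := by
          refine mul_le_mul_of_nonneg_left ?_ (by positivity)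
          rw [div_le_one (by positivity)]
          linarith
      _ = δ₀ / 8 := mul_one _
  -- states
  let Inv : ℕ → (((Fin k → ℝ) → ℝ) × Set ℕ) → Prop := fun i s =>
    ContDiff ℝ ∞ s.1 ∧ (∀ x, 0 ≤ s.1 x) ∧ (∀ x, s.1 x ≤ 1) ∧ s.2.Infinite ∧
      ∀ j ∈ s.2, N j (fun x => 1 - s.1 x) ≤ εt * (1 - (1 / 2) ^ i)
  let Rel : ℕ → (((Fin k → ℝ) → ℝ) × Set ℕ) → (((Fin k → ℝ) → ℝ) × Set ℕ) →
      (ℕ × ((Fin k → ℝ) → ℝ) × ((Fin k → ℝ) → ℝ) × (F →L[ℝ] ℝ)) → Prop := fun i s s' o =>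
    o.1 ∈ s.2 ∧ (∀ j' ∈ s'.2, o.1 < j') ∧ ContDiff ℝ ∞ o.2.1 ∧ (∀ x, 0 ≤ o.2.2.1 x) ∧
      (∀ x, ‖fderiv ℝ o.2.1 x‖ ≤ o.2.2.1 x) ∧
      (∀ x ∈ B, |o.2.1 x| * ‖fderiv ℝ s.1 x‖ ≤ εt * (1 / 2) ^ (i + 1)) ∧
      (∀ x : B, o.2.2.2 (δ x) = s.1 x * o.2.1 x) ∧ δ₀ / 4 ≤ o.2.2.2 (m o.1) ∧
      ∀ x, s'.1 x = s.1 x * (1 - o.2.2.1 x)
  have hstep : ∀ i s, Inv i s → ∃ s' o, Inv (i + 1) s' ∧ Rel i s s' o := by
    rintro i ⟨ψ, J⟩ ⟨h1, h2, h3, h4, h5⟩
    have hp0 : (0 : ℝ) < (1 / 2) ^ i := by positivity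
    have hp1 : ((1 : ℝ) / 2) ^ (i + 1) ≤ 1 := pow_le_one₀ (by norm_num) (by norm_num)
    have hp2 : (0 : ℝ) < (1 / 2) ^ (i + 1) := by positivity
    obtain ⟨j, hj, G, a, hh, t1, t2, t3, t4, t5, t6, t7, t8, t9⟩ := step hBc hBx h r hr hr2 hf hKf
      hKf2 hfK hδ₀ hfm hCm m' N C hC0 hctrl hmm hε₀ ψ h1 h2 h3 J h4
      (η := εt * (1 - (1 / 2) ^ i)) (by nlinarith) h5 (ε := εt * (1 / 2) ^ (i + 1)) (by positivity)
      (by nlinarith) (by
        calc εt * (1 / 2) ^ (i + 1) * Cm = (1 / 2) ^ (i + 1) * (εt * Cm) := by ring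
          _ ≤ 1 * (εt * Cm) := mul_le_mul_of_nonneg_right hp1 (by positivity)
          _ ≤ δ₀ / 8 := by rw [one_mul]; exact hεt3)
    refine ⟨(fun x => ψ x * (1 - a x), {j' | j' ∈ J ∧ j < j' ∧ N j' a ≤ εt * (1 / 2) ^ (i + 1)}),
      (j, G, a, hh), ⟨?_, ?_, ?_, t9, ?_⟩, hj, fun j' hj' => hj'.2.1, t1, t3, t5, t6, t7, t8,
      fun x => rfl⟩
    · exact h1.mul (contDiff_const.sub t2)
    · exact fun x => mul_nonneg (h2 x) (by linarith [t4 x])
    · exact fun x => mul_le_one₀ (h3 x) (by linarith [t4 x]) (by linarith [t3 x])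
    · rintro j' ⟨hj'1, -, hj'2⟩
      have e1 : N j' (fun x => 1 - ψ x * (1 - a x)) ≤
          N j' (fun x => 1 * (1 - ψ x) + 1 * a x) := by
        refine (hctrl j').mono _ _ ?_ ?_ fun x _ => ?_
        · exact continuous_const.sub (h1.continuous.mul (continuous_const.sub t2.continuous))
        · exact (continuous_const.mul (continuous_const.sub h1.continuous)).add
            (continuous_const.mul t2.continuous)
        · have := mul_le_mul_of_nonneg_right (h3 x) (t3 x)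
          linarith
      rw [(hctrl j').lin (fun x => 1 - ψ x) a 1 1 (continuous_const.sub h1.continuous)
        t2.continuous, one_mul, one_mul] at e1
      have e2 := h5 j' hj'1
      have e3 : εt * (1 - (1 / 2) ^ i) + εt * (1 / 2) ^ (i + 1) = εt * (1 - (1 / 2) ^ (i + 1)) := by
        rw [pow_succ]; ring
      show N j' (fun x => 1 - ψ x * (1 - a x)) ≤ εt * (1 - (1 / 2) ^ (i + 1))
      linarith
  have hinit : Inv 0 (fun _ => 1, Set.univ) := by
    refine ⟨contDiff_const, fun _ => zero_le_one, fun _ => le_rfl, Set.infinite_univ, fun j _ => ?_⟩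
    have := (hctrl j).const 0 le_rfl
    simpa using this
  let S : (i : ℕ) → {s : ((Fin k → ℝ) → ℝ) × Set ℕ // Inv i s} := fun i =>
    Nat.rec (motive := fun i => {s : ((Fin k → ℝ) → ℝ) × Set ℕ // Inv i s})
      ⟨(fun _ => 1, Set.univ), hinit⟩
      (fun i s => ⟨(hstep i s.1 s.2).choose, (hstep i s.1 s.2).choose_spec.choose_spec.1⟩) i
  have hRel : ∀ i, ∃ o, Rel i (S i).1 (S (i + 1)).1 o := fun i =>
    ⟨(hstep i (S i).1 (S i).2).choose_spec.choose,
      (hstep i (S i).1 (S i).2).choose_spec.choose_spec.2⟩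
  choose o ho using hRel
  set ψ : ℕ → (Fin k → ℝ) → ℝ := fun i => (S i).1.1 with hψ
  have hψ0 : ∀ x, ψ 0 x = 1 := fun x => rfl
  have hInv : ∀ i, Inv i (S i).1 := fun i => (S i).2
  -- the indices are increasing
  have hjmono : StrictMono fun i => (o i).1 := strictMono_nat_of_lt_succ fun i =>
    (ho i).2.1 _ (ho (i + 1)).1
  set hh : ℕ → (F →L[ℝ] ℝ) := fun i => (o i).2.2.2 with hhh
  set G : ℕ → (Fin k → ℝ) → ℝ := fun i => (o i).2.1 with hG
  set a : ℕ → (Fin k → ℝ) → ℝ := fun i => (o i).2.2.1 with ha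
  refine no_wuc (fun i => m (o i).1) hh (hm.comp hjmono.injective) 2 (δ₀ / 4) (by positivity) ?_
    (fun i => (ho i).2.2.2.2.2.2.2.1)
  intro J z
  obtain ⟨n, hn⟩ : ∃ n, J ⊆ Finset.range n := J.exists_nat_subset_range
  have hsum : ∀ θ : ℕ → ℝ, (∀ j, |θ j| ≤ 1) → ‖∑ i ∈ Finset.range n, θ i • hh i‖ ≤ 2 := by
    intro θ hθ
    set H : (Fin k → ℝ) → ℝ := fun x => ∑ i ∈ Finset.range n, θ i * (ψ i x * G i x) with hH
    have hψd : ∀ i, Differentiable ℝ (ψ i) := fun i => (hInv i).1.differentiable (by simp)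
    have hGd : ∀ i, Differentiable ℝ (G i) := fun i => (ho i).2.2.1.differentiable (by simp)
    have hder : ∀ x, HasFDerivAt H (∑ i ∈ Finset.range n, θ i • (ψ i x • fderiv ℝ (G i) x +
        G i x • fderiv ℝ (ψ i) x)) x := by
      intro x
      have := HasFDerivAt.fun_sum (u := Finset.range n) (A := fun i z => θ i * (ψ i z * G i z))
        (A' := fun i => θ i • (ψ i x • fderiv ℝ (G i) x + G i x • fderiv ℝ (ψ i) x)) (x := x)
        (𝕜 := ℝ) fun i _ =>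
          (((hψd i x).hasFDerivAt).mul ((hGd i x).hasFDerivAt)).const_mul (θ i)
      exact this
    have hbound : ∀ x ∈ B, ‖fderiv ℝ H x‖ ≤ 2 := by
      intro x hx
      rw [(hder x).fderiv]
      have e1 : ∀ i ∈ Finset.range n, ‖θ i • (ψ i x • fderiv ℝ (G i) x +
          G i x • fderiv ℝ (ψ i) x)‖ ≤ (ψ i x - ψ (i + 1) x) + εt * (1 / 2) ^ (i + 1) := by
        intro i _
        rw [norm_smul, Real.norm_eq_abs]
        have e2 : ‖ψ i x • fderiv ℝ (G i) x + G i x • fderiv ℝ (ψ i) x‖ ≤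
            ψ i x * a i x + εt * (1 / 2) ^ (i + 1) := by
          refine (norm_add_le _ _).trans (add_le_add ?_ ?_)
          · rw [norm_smul, Real.norm_of_nonneg ((hInv i).2.1 x)]
            exact mul_le_mul_of_nonneg_left ((ho i).2.2.2.2.1 x) ((hInv i).2.1 x)
          · rw [norm_smul, Real.norm_eq_abs]
            exact (ho i).2.2.2.2.2.1 x hx
        have e3 : ψ (i + 1) x = ψ i x * (1 - a i x) := (ho i).2.2.2.2.2.2.2.2 x
        calc |θ i| * _ ≤ 1 * (ψ i x * a i x + εt * (1 / 2) ^ (i + 1)) :=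
              mul_le_mul (hθ i) e2 (norm_nonneg _) zero_le_one
          _ = (ψ i x - ψ (i + 1) x) + εt * (1 / 2) ^ (i + 1) := by rw [e3]; ring
      refine (norm_sum_le _ _).trans ((Finset.sum_le_sum e1).trans ?_)
      rw [Finset.sum_add_distrib, Finset.sum_range_sub', ← Finset.mul_sum, hψ0]
      have e4 : 0 ≤ ψ n x := (hInv n).2.1 x
      have e5 : ∑ i ∈ Finset.range n, ((1 : ℝ) / 2) ^ (i + 1) ≤ 1 := by
        have : ∀ n : ℕ, ∑ i ∈ Finset.range n, ((1 : ℝ) / 2) ^ (i + 1) = 1 - (1 / 2) ^ n := by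
          intro n
          induction n with
          | zero => simp
          | succ n ih => rw [Finset.sum_range_succ, ih, pow_succ]; ring
        rw [this]
        have : (0 : ℝ) ≤ (1 / 2) ^ n := by positivity
        linarith
      have e6 : εt * ∑ i ∈ Finset.range n, ((1 : ℝ) / 2) ^ (i + 1) ≤ 1 * 1 :=
        mul_le_mul hεt1 e5 (Finset.sum_nonneg fun _ _ => by positivity) zero_le_one
      linarith
    refine norm_le_of_lip h _ (by norm_num) fun x y => ?_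
    have e1 : ∀ x : B, (∑ i ∈ Finset.range n, θ i • hh i) (δ x) = H x := by
      intro x
      rw [sum_apply]
      refine Finset.sum_congr rfl fun i _ => ?_
      rw [smul_apply, smul_eq_mul]
      congr 1
      exact (ho i).2.2.2.2.2.2.1 x
    rw [e1, e1, Subtype.dist_eq, dist_eq_norm]
    exact hBx.norm_image_sub_le_of_norm_fderiv_le (𝕜 := ℝ)
      (fun z _ => (hder z).differentiableAt) hbound y.2 x.2
  set θ : ℕ → ℝ := fun j => if 0 ≤ hh j z then 1 else -1 with hθ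
  have hθ1 : ∀ j, |θ j| ≤ 1 := fun j => by
    rw [hθ]
    dsimp only
    split_ifs <;> simp
  have hθ2 : ∀ j, θ j * hh j z = |hh j z| := fun j => by
    rw [hθ]
    dsimp only
    split_ifs with h
    · rw [abs_of_nonneg h, one_mul]
    · rw [abs_of_neg (not_le.1 h)]; ring
  calc ∑ i ∈ J, |hh i z| ≤ ∑ i ∈ Finset.range n, |hh i z| :=
        Finset.sum_le_sum_of_subset_of_nonneg hn fun _ _ _ => abs_nonneg _
    _ = (∑ i ∈ Finset.range n, θ i • hh i) z := by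
        rw [sum_apply]
        exact Finset.sum_congr rfl fun j _ => by rw [smul_apply, smul_eq_mul, hθ2]
    _ ≤ ‖(∑ i ∈ Finset.range n, θ i • hh i)‖ * ‖z‖ :=
        (le_abs_self _).trans ((∑ i ∈ Finset.range n, θ i • hh i).le_opNorm z)
    _ ≤ 2 * ‖z‖ := mul_le_mul_of_nonneg_right (hsum θ hθ1) (norm_nonneg z)

end Pool.Agent.X205.CE
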