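import Pool.Agent.X205.CE.Basic
import Pool.Agent.TH326.Free

set_option autoImplicit false
set_option linter.unusedSectionVars false

/-! Elements of a Lipschitz-free space as limits of combinations of molecules, and the positive
functional on continuous functions which controls such a combination. -/

namespace Pool.Agent.X205.CE

open Filter Topology MeasureTheory
open Pool.Agent.TH326.Free (IsFree)

section mol

variable {M : Type*} [MetricSpace M] {x0 : M} {F : Type*} [NormedAddCommGroup F]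
  [NormedSpace ℝ F] {δ : M → F}

theorem norm_le_of_lip (h : IsFree x0 δ) (φ : F →L[ℝ] ℝ) {K : ℝ} (hK : 0 ≤ K)
    (H : ∀ x y, |φ (δ x) - φ (δ y)| ≤ K * dist x y) : ‖φ‖ ≤ K := by
  obtain ⟨φ', h1, h2⟩ := h.ext K (fun x => φ (δ x)) hK H (by
    show φ (δ x0) = 0
    rw [h.base, map_zero])
  have : φ' = φ := h.ext_map h2
  rwa [← this]

theorem mol (h : IsFree x0 δ) (m : F) {ε : ℝ} (hε : 0 < ε) :
    ∃ (ι : Type) (t : Finset ι) (c : ι → ℝ) (x y : ι → M),
      ‖m - ∑ i ∈ t, c i • (δ (x i) - δ (y i))‖ ≤ ε ∧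
      ∑ i ∈ t, |c i| * dist (x i) (y i) ≤ ‖m‖ + 1 := by
  set r : ℝ := ‖m‖ + 1 with hr
  have hr0 : 0 < r := by positivity
  set S : Set F := {z | ∃ (c : ℝ) (x y : M), |c| * dist x y ≤ r ∧ z = c • (δ x - δ y)} with hS
  have hm : m ∈ closure (convexHull ℝ S) := by
    by_contra hcon
    obtain ⟨f, u, h1, h2⟩ := geometric_hahn_banach_closed_point
      (convex_convexHull ℝ S).closure isClosed_closure hcon
    have hsub : ∀ z ∈ S, f z < u := fun z hz => h1 z (subset_closure (subset_convexHull ℝ S hz))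
    have hu : 0 < u := by
      have := hsub 0 ⟨0, x0, x0, by simp [hr0.le], by simp⟩
      rwa [map_zero] at this
    have h3 : ‖f‖ ≤ u / r := by
      refine norm_le_of_lip h f (by positivity) fun x y => ?_
      rcases eq_or_ne x y with hxy | hxy
      · subst hxy; simp
      have hd : 0 < dist x y := dist_pos.2 hxy
      have key : ∀ s : ℝ, |s| = 1 → s * (f (δ x) - f (δ y)) ≤ u / r * dist x y := by
        intro s hs
        have h4 := hsub ((s * (r / dist x y)) • (δ x - δ y)) ⟨_, x, y, by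
          rw [abs_mul, hs, one_mul, abs_of_pos (by positivity)]
          exact (div_mul_cancel₀ _ hd.ne').le, rfl⟩
        rw [map_smul, smul_eq_mul, map_sub] at h4
        have h5 : s * (f (δ x) - f (δ y)) = (s * (r / dist x y) * (f (δ x) - f (δ y))) *
            (dist x y / r) := by
          field_simp
        rw [h5]
        calc _ ≤ u * (dist x y / r) := mul_le_mul_of_nonneg_right h4.le (by positivity)
          _ = u / r * dist x y := by ring
      rw [abs_le]
      have k1 := key 1 (by simp)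
      have k2 := key (-1) (by simp)
      constructor <;> linarith
    have h4 : f m ≤ u / r * ‖m‖ := (le_abs_self _).trans
      ((f.le_opNorm m).trans (mul_le_mul_of_nonneg_right h3 (norm_nonneg m)))
    have h5 : u / r * ‖m‖ ≤ u := by
      rw [div_mul_eq_mul_div, div_le_iff₀ hr0]
      exact mul_le_mul_of_nonneg_left (by rw [hr]; linarith) hu.le
    linarith
  obtain ⟨z, hz, hz2⟩ := Metric.mem_closure_iff.1 hm ε hε
  rw [convexHull_eq] at hz
  obtain ⟨ι, t, w, q, w1, w2, w3, rfl⟩ := hz
  have w3' : ∀ i, ∃ (c : ℝ) (x y : M), i ∈ t → |c| * dist x y ≤ r ∧ q i = c • (δ x - δ y) := by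
    intro i
    by_cases hi : i ∈ t
    · obtain ⟨c, x, y, h1, h2⟩ := w3 i hi
      exact ⟨c, x, y, fun _ => ⟨h1, h2⟩⟩
    · exact ⟨0, x0, x0, fun h => absurd h hi⟩
  choose c x y hc using w3'
  refine ⟨ι, t, fun i => w i * c i, x, y, ?_, ?_⟩
  · have h1 : t.centerMass w q = ∑ i ∈ t, (w i * c i) • (δ (x i) - δ (y i)) := by
      rw [Finset.centerMass_eq_of_sum_1 _ _ w2]
      exact Finset.sum_congr rfl fun i hi => by rw [(hc i hi).2, smul_smul]
    rw [h1, dist_eq_norm] at hz2
    exact hz2.le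
  · calc ∑ i ∈ t, |w i * c i| * dist (x i) (y i) ≤ ∑ i ∈ t, w i * r := by
          refine Finset.sum_le_sum fun i hi => ?_
          rw [abs_mul, abs_of_nonneg (w1 i hi), mul_assoc]
          exact mul_le_mul_of_nonneg_left (hc i hi).1 (w1 i hi)
      _ = r := by rw [← Finset.sum_mul, w2, one_mul]

end mol

section ctrl

variable {E : Type*} [NormedAddCommGroup E] [NormedSpace ℝ E] {F : Type*} [NormedAddCommGroup F]
  [NormedSpace ℝ F]

/-- `N` is a positive functional which controls the finitely supported element `m'` -/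
structure Ctrl (B : Set E) (δ : B → F) (m' : F) (N : (E → ℝ) → ℝ) (R C : ℝ) : Prop where
  lin : ∀ (a b : E → ℝ) (c d : ℝ), Continuous a → Continuous b →
    N (fun x => c * a x + d * b x) = c * N a + d * N b
  mono : ∀ a b : E → ℝ, Continuous a → Continuous b → (∀ x ∈ B, a x ≤ b x) → N a ≤ N b
  const : ∀ c : ℝ, 0 ≤ c → N (fun _ => c) ≤ c * R
  grad : ∀ (g a : E → ℝ), ContDiff ℝ 1 g → Continuous a → (∀ x ∈ B, ‖fderiv ℝ g x‖ ≤ a x) →
    ∀ l : F →L[ℝ] ℝ, (∀ x y : B, l (δ x) - l (δ y) = g x - g y) → |l m'| ≤ N a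
  sup : ∀ (l : F →L[ℝ] ℝ) (s : ℝ), (∀ x, |l (δ x)| ≤ s) → |l m'| ≤ C * s

theorem Ctrl.sum {B : Set E} {δ : B → F} {m' : F} {N : (E → ℝ) → ℝ} {R C : ℝ}
    (h : Ctrl B δ m' N R C) {ι : Type*} (Q : Finset ι) (a : ι → E → ℝ)
    (ha : ∀ j ∈ Q, Continuous (a j)) : N (fun x => ∑ j ∈ Q, a j x) = ∑ j ∈ Q, N (a j) := by
  classical
  induction Q using Finset.induction_on with
  | empty =>
    have := h.lin (fun _ => 0) (fun _ => 0) 0 0 continuous_const continuous_const
    simpa using this
  | insert k Q hk ih =>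
    rw [Finset.sum_insert hk]
    have h1 : ∀ j ∈ Q, Continuous (a j) := fun j hj => ha j (Finset.mem_insert_of_mem hj)
    have h2 := h.lin (a k) (fun x => ∑ j ∈ Q, a j x) 1 1 (ha k (Finset.mem_insert_self _ _))
      (continuous_finsetSum _ h1)
    simp only [one_mul] at h2
    rw [← ih h1, ← h2]
    congr 1
    funext x
    rw [Finset.sum_insert hk]

theorem exists_ctrl {B : Set E} (hB : Convex ℝ B) {x0 : B} {δ : B → F} (h : IsFree x0 δ) (m : F)
    {ε : ℝ} (hε : 0 < ε) : ∃ (m' : F) (N : (E → ℝ) → ℝ) (C : ℝ), ‖m - m'‖ ≤ ε ∧ 0 ≤ C ∧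
      Ctrl B δ m' N (‖m‖ + 1) C := by
  obtain ⟨ι, t, c, x, y, h1, h2⟩ := mol h m hε
  have hpath : ∀ i, Continuous fun s : ℝ => (y i : E) + s • ((x i : E) - y i) := fun i => by
    fun_prop
  have hint : ∀ (a : E → ℝ), Continuous a → ∀ i, IntervalIntegrable
      (fun s : ℝ => a ((y i : E) + s • ((x i : E) - y i))) volume 0 1 := fun a ha i =>
    (ha.comp (hpath i)).intervalIntegrable _ _
  have hmem : ∀ i (s : ℝ), 0 ≤ s → s ≤ 1 → (y i : E) + s • ((x i : E) - y i) ∈ B := by
    intro i s hs0 hs1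
    exact hB.add_smul_sub_mem (y i).2 (x i).2 ⟨hs0, hs1⟩
  refine ⟨∑ i ∈ t, c i • (δ (x i) - δ (y i)),
    fun a => ∑ i ∈ t, (|c i| * dist (x i) (y i)) *
      ∫ s in (0:ℝ)..1, a ((y i : E) + s • ((x i : E) - y i)),
    2 * ∑ i ∈ t, |c i|, h1, by positivity, ?_, ?_, ?_, ?_, ?_⟩
  · intro a b p q ha hb
    rw [Finset.mul_sum, Finset.mul_sum, ← Finset.sum_add_distrib]
    refine Finset.sum_congr rfl fun i _ => ?_
    rw [intervalIntegral.integral_add ((hint a ha i).const_mul p) ((hint b hb i).const_mul q),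
      intervalIntegral.integral_const_mul, intervalIntegral.integral_const_mul]
    ring
  · intro a b ha hb hab
    refine Finset.sum_le_sum fun i _ => mul_le_mul_of_nonneg_left ?_ (by positivity)
    exact intervalIntegral.integral_mono_on zero_le_one (hint a ha i) (hint b hb i)
      fun s hs => hab _ (hmem i s hs.1 hs.2)
  · intro p hp
    simp only [intervalIntegral.integral_const, sub_zero, one_smul]
    rw [← Finset.sum_mul, mul_comm p]
    exact mul_le_mul_of_nonneg_right h2 hp
  · intro g a hg ha hga l hl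
    rw [map_sum]
    refine (Finset.abs_sum_le_sum_abs _ _).trans (Finset.sum_le_sum fun i _ => ?_)
    rw [map_smul, smul_eq_mul, abs_mul, mul_assoc]
    refine mul_le_mul_of_nonneg_left ?_ (abs_nonneg _)
    rw [map_sub, hl]
    have hdiff : ∀ z, HasFDerivAt g (fderiv ℝ g z) z := fun z =>
      ((hg.differentiable (by norm_num)) z).hasFDerivAt
    have hder : ∀ s : ℝ, HasDerivAt (fun s : ℝ => g ((y i : E) + s • ((x i : E) - y i)))
        (fderiv ℝ g ((y i : E) + s • ((x i : E) - y i)) ((x i : E) - y i)) s := by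
      intro s
      have hl1 : HasDerivAt (fun s : ℝ => (y i : E) + s • ((x i : E) - y i)) ((x i : E) - y i) s := by
        have := ((hasDerivAt_id s).smul_const ((x i : E) - y i)).const_add (y i : E)
        simpa using this
      exact (hdiff _).comp_hasDerivAt s hl1
    have hcd : Continuous fun s : ℝ =>
        fderiv ℝ g ((y i : E) + s • ((x i : E) - y i)) ((x i : E) - y i) :=
      ((hg.continuous_fderiv (by norm_num)).comp (hpath i)).clm_apply continuous_const
    have h3 : g (x i) - g (y i) = ∫ s in (0:ℝ)..1,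
        fderiv ℝ g ((y i : E) + s • ((x i : E) - y i)) ((x i : E) - y i) := by
      rw [intervalIntegral.integral_eq_sub_of_hasDerivAt (fun s _ => hder s)
        (hcd.intervalIntegrable _ _)]
      simp
    rw [h3, ← Real.norm_eq_abs]
    calc ‖∫ s in (0:ℝ)..1, fderiv ℝ g ((y i : E) + s • ((x i : E) - y i)) ((x i : E) - y i)‖
        ≤ ∫ s in (0:ℝ)..1, ‖fderiv ℝ g ((y i : E) + s • ((x i : E) - y i)) ((x i : E) - y i)‖ :=
          intervalIntegral.norm_integral_le_integral_norm zero_le_one
      _ ≤ ∫ s in (0:ℝ)..1, dist (x i) (y i) * a ((y i : E) + s • ((x i : E) - y i)) := by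
          refine intervalIntegral.integral_mono_on zero_le_one (hcd.norm.intervalIntegrable _ _)
            ((hint a ha i).const_mul _) fun s hs => ?_
          refine (ContinuousLinearMap.le_opNorm _ _).trans ?_
          rw [mul_comm, Subtype.dist_eq, dist_eq_norm]
          exact mul_le_mul_of_nonneg_left (hga _ (hmem i s hs.1 hs.2)) (norm_nonneg _)
      _ = _ := intervalIntegral.integral_const_mul _ _
  · intro l s hs
    rw [map_sum, mul_comm 2, mul_assoc, Finset.sum_mul]
    refine (Finset.abs_sum_le_sum_abs _ _).trans (Finset.sum_le_sum fun i _ => ?_)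
    rw [map_smul, smul_eq_mul, abs_mul, map_sub]
    refine mul_le_mul_of_nonneg_left ?_ (abs_nonneg _)
    have := abs_sub (l (δ (x i))) (l (δ (y i)))
    linarith [hs (x i), hs (y i)]

end ctrl

end Pool.Agent.X205.CE
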