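import Pool.Agent.X205.CE.Whole

set_option autoImplicit false
set_option linter.unusedSectionVars false

/-! Failure of `DPS` for Lipschitz-free spaces over infinite-dimensional spaces, e.g. `ℓ_p`,
`1 < p < ∞`. -/

namespace Pool.Agent.X205.CE

open Filter Topology MeasureTheory
open scoped ENNReal
open Pool.Agent.TH326.Free (IsFree)

theorem free_not_dps {X : Type} [NormedAddCommGroup X] [NormedSpace ℝ X] [CompleteSpace X]
    {F : Type*} [NormedAddCommGroup F] [NormedSpace ℝ F] [CompleteSpace F] {δ : X → F}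
    (h : IsFree (0 : X) δ) (x : ℕ → X) (hx : ∀ j, ‖x j‖ ≤ 1) (f : ℕ → (X →L[ℝ] ℝ))
    (hxs : SmallSums x) (hfs : SmallSums f) {c : ℝ} (hc : 0 < c) (hfx : ∀ j, c ≤ f j (x j)) :
    ¬ DPS F := by
  intro hF
  have hδ : Lpz 1 δ := fun x y => by
    rw [one_mul, ← dist_eq_norm x y]
    exact h.lip x y
  obtain ⟨Φ, Ψ, C, h1, h2, h3, h4⟩ := exists_smooth x hx zero_le_one hδ
  obtain ⟨β, hβ, -⟩ := h.lift (fun v : X => v) 1 zero_le_one (fun x y => by
    rw [one_mul, dist_eq_norm]) rfl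
  have h5 := h4 X β (fun v => v) fun x y => by rw [hβ, hβ]
  have hm : SmallSums fun j => Ψ j 0 := by
    obtain ⟨om, w1, w2⟩ := hxs
    refine ⟨om, w1, fun J θ hθ => ?_⟩
    have h6 := norm_comb_le h1 h2 h3 J θ
    rw [one_mul] at h6
    exact h6.trans (w2 J θ hθ)
  have hβm : ∀ j, β (Ψ j 0) = x j := by
    intro j
    by_contra hne
    have ha : 0 < ‖x j - β (Ψ j 0)‖ := norm_pos_iff.2 (sub_ne_zero.2 fun h => hne h.symm)
    set a := ‖x j - β (Ψ j 0)‖ with hadef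
    have key : ∀ t : ℝ, 0 < t → a ≤ ‖β‖ * |C j| * t := by
      intro t ht
      have e1 := h3 j 0 t
      rw [zero_add] at e1
      have e2 : β (Φ (t • x j) - Φ 0 - t • Ψ j 0) = t • (x j - β (Ψ j 0)) := by
        rw [map_sub, map_sub, h5, map_smul, smul_sub, sub_zero]
      have e3 : ‖t • (x j - β (Ψ j 0))‖ ≤ ‖β‖ * (|C j| * t ^ 2) := by
        rw [← e2]
        refine (β.le_opNorm _).trans (mul_le_mul_of_nonneg_left (e1.trans ?_) (norm_nonneg β))
        exact mul_le_mul_of_nonneg_right (le_abs_self _) (by positivity)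
      rw [norm_smul, Real.norm_of_nonneg ht.le] at e3
      have e4 : t * a ≤ t * (‖β‖ * |C j| * t) := by
        calc t * a ≤ ‖β‖ * (|C j| * t ^ 2) := e3
          _ = t * (‖β‖ * |C j| * t) := by ring
      exact le_of_mul_le_mul_left e4 ht
    have hb : 0 ≤ ‖β‖ * |C j| := by positivity
    have h7 := key (a / (2 * (‖β‖ * |C j| + 1))) (by positivity)
    have h8 : ‖β‖ * |C j| * (a / (2 * (‖β‖ * |C j| + 1))) ≤ a / 2 := by
      calc ‖β‖ * |C j| * (a / (2 * (‖β‖ * |C j| + 1))) =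
            (‖β‖ * |C j| / (‖β‖ * |C j| + 1)) * (a / 2) := by field_simp
        _ ≤ 1 * (a / 2) := by
            refine mul_le_mul_of_nonneg_right ?_ (by positivity)
            rw [div_le_one (by positivity)]
            linarith
        _ = a / 2 := one_mul _
    linarith
  refine hF (fun j => Ψ j 0) (fun j => (f j).comp β) c hm (hfs.precomp β) hc fun j => ?_
  show c ≤ f j (β (Ψ j 0))
  rw [hβm]
  exact hfx j

theorem rpow_small {s : ℝ} (hs : s < 1) (ε : ℝ) (hε : 0 < ε) :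
    ∃ n : ℕ, 0 < n ∧ ((n : ℝ) ^ s) ≤ ε * n := by
  have h1 : Tendsto (fun n : ℕ => (n : ℝ) ^ (-(1 - s))) atTop (𝓝 0) :=
    (tendsto_rpow_neg_atTop (by linarith)).comp tendsto_natCast_atTop_atTop
  obtain ⟨n, hn1, hn2⟩ := ((h1.eventually (gt_mem_nhds hε)).and (eventually_gt_atTop 0)).exists
  refine ⟨n, hn2, ?_⟩
  have hn : (0 : ℝ) < n := by exact_mod_cast hn2
  have h2 : (n : ℝ) ^ s = (n : ℝ) ^ (-(1 - s)) * n := by
    nth_rewrite 3 [← Real.rpow_one (n : ℝ)]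
    rw [← Real.rpow_add hn]
    congr 1
    ring
  rw [h2]
  exact mul_le_mul_of_nonneg_right hn1.le hn.le

theorem basis_small {p : ℝ≥0∞} [Fact (1 ≤ p)] (hp : 1 < p) (hp' : p < ⊤) :
    SmallSums (fun j => lp.single (E := fun _ : ℕ => ℝ) p j (1 : ℝ)) := by
  have hpr : 1 < p.toReal := by
    rw [← ENNReal.toReal_one]
    exact (ENNReal.toReal_lt_toReal ENNReal.one_ne_top hp'.ne).2 hp
  have hp0 : 0 < p.toReal := by linarith
  refine ⟨fun n => (n : ℝ) ^ (1 / p.toReal), fun ε hε => rpow_small ?_ ε hε, fun J θ hθ => ?_⟩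
  · rw [div_lt_one hp0]; exact hpr
  · have h1 : ∑ j ∈ J, θ j • lp.single (E := fun _ : ℕ => ℝ) p j (1 : ℝ) =
        ∑ j ∈ J, lp.single (E := fun _ : ℕ => ℝ) p j (θ j) := by
      refine Finset.sum_congr rfl fun j _ => ?_
      have := lp.single_smul (E := fun _ : ℕ => ℝ) p j (θ j) (1 : ℝ)
      rw [← this, smul_eq_mul, mul_one]
    have h2 := lp.norm_sum_single (E := fun _ : ℕ => ℝ) hp0 θ J
    rw [← h1] at h2
    have h3 : ∑ j ∈ J, ‖θ j‖ ^ p.toReal ≤ J.card := by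
      have : ∑ j ∈ J, ‖θ j‖ ^ p.toReal ≤ ∑ j ∈ J, (1 : ℝ) :=
        Finset.sum_le_sum fun j _ => Real.rpow_le_one (norm_nonneg _) (hθ j) hp0.le
      simpa using this
    rw [← h2] at h3
    set v := ∑ j ∈ J, θ j • lp.single (E := fun _ : ℕ => ℝ) p j (1 : ℝ)
    have h4 : ‖v‖ = (‖v‖ ^ p.toReal) ^ (1 / p.toReal) := by
      rw [← Real.rpow_mul (norm_nonneg _), mul_one_div_cancel hp0.ne', Real.rpow_one]
    rw [h4]
    exact Real.rpow_le_rpow (by positivity) h3 (by positivity)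

theorem coord_small {p : ℝ≥0∞} [Fact (1 ≤ p)] (hp : 1 < p) (hp' : p < ⊤) :
    SmallSums (fun j => lp.evalCLM ℝ (fun _ : ℕ => ℝ) p j) := by
  have hpr : 1 < p.toReal := by
    rw [← ENNReal.toReal_one]
    exact (ENNReal.toReal_lt_toReal ENNReal.one_ne_top hp'.ne).2 hp
  have hp0 : 0 < p.toReal := by linarith
  set q : ℝ := p.toReal / (p.toReal - 1) with hq
  have hpq : p.toReal.HolderConjugate q := Real.HolderConjugate.conjExponent hpr
  have hq1 : 1 < q := hpq.symm.lt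
  refine ⟨fun n => (n : ℝ) ^ (1 / q), fun ε hε => rpow_small ?_ ε hε, fun J θ hθ => ?_⟩
  · rw [div_lt_one (by linarith)]; exact hq1
  · refine ContinuousLinearMap.opNorm_le_bound _ (by positivity) fun x => ?_
    rw [sum_apply]
    have h1 : ‖∑ j ∈ J, (θ j • lp.evalCLM ℝ (fun _ : ℕ => ℝ) p j) x‖ ≤ ∑ j ∈ J, |θ j| * |x j| := by
      refine (norm_sum_le _ _).trans (Finset.sum_le_sum fun j _ => ?_)
      rw [smul_apply, norm_smul]
      exact le_rfl
    have h2 := Real.inner_le_Lp_mul_Lq J (fun j => |x j|) (fun j => |θ j|) hpq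
    have h3 : ∑ j ∈ J, |θ j| * |x j| = ∑ j ∈ J, |x j| * |θ j| :=
      Finset.sum_congr rfl fun j _ => mul_comm _ _
    have h4 : (∑ j ∈ J, |(|x j|)| ^ p.toReal) ^ (1 / p.toReal) ≤ ‖x‖ := by
      have h5 := lp.sum_rpow_le_norm_rpow hp0 x J
      have h6 : ∑ j ∈ J, |(|x j|)| ^ p.toReal ≤ ‖x‖ ^ p.toReal := by
        simpa only [abs_abs, Real.norm_eq_abs] using h5
      calc _ ≤ (‖x‖ ^ p.toReal) ^ (1 / p.toReal) :=
            Real.rpow_le_rpow (by positivity) h6 (by positivity)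
        _ = ‖x‖ := by rw [← Real.rpow_mul (norm_nonneg _), mul_one_div_cancel hp0.ne', Real.rpow_one]
    have h5 : (∑ j ∈ J, |(|θ j|)| ^ q) ^ (1 / q) ≤ (J.card : ℝ) ^ (1 / q) := by
      refine Real.rpow_le_rpow (by positivity) ?_ (by positivity)
      have : ∑ j ∈ J, |(|θ j|)| ^ q ≤ ∑ j ∈ J, (1 : ℝ) :=
        Finset.sum_le_sum fun j _ => Real.rpow_le_one (abs_nonneg _) (by rw [abs_abs]; exact hθ j)
          (by linarith)
      simpa using this
    calc _ ≤ ∑ j ∈ J, |θ j| * |x j| := h1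
      _ = ∑ j ∈ J, |x j| * |θ j| := h3
      _ ≤ _ := h2
      _ ≤ ‖x‖ * (J.card : ℝ) ^ (1 / q) := mul_le_mul h4 h5 (by positivity) (norm_nonneg x)
      _ = _ := mul_comm _ _

theorem free_lp_not_dps {p : ℝ≥0∞} [Fact (1 ≤ p)] (hp : 1 < p) (hp' : p < ⊤)
    {F : Type*} [NormedAddCommGroup F] [NormedSpace ℝ F] [CompleteSpace F]
    {δ : lp (fun _ : ℕ => ℝ) p → F} (h : IsFree (0 : lp (fun _ : ℕ => ℝ) p) δ) : ¬ DPS F := by
  refine free_not_dps h (fun j => lp.single (E := fun _ : ℕ => ℝ) p j (1 : ℝ)) (fun j => ?_)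
    (fun j => lp.evalCLM ℝ (fun _ : ℕ => ℝ) p j) (basis_small hp hp') (coord_small hp hp')
    one_pos fun j => ?_
  · rw [lp.norm_single (zero_lt_one.trans hp)]
    simp
  · show (1 : ℝ) ≤ (lp.single (E := fun _ : ℕ => ℝ) p j (1 : ℝ)) j
    rw [lp.single_apply_self]

end Pool.Agent.X205.CE
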