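import Mathlib

set_option autoImplicit false
set_option linter.unusedSectionVars false

/-!
Smoothing a Lipschitz map along a sequence of directions, and the resulting almost linear
selection: the linearisation `X → F(X)` (Godefroy–Kalton) along a sequence of vectors.
-/

namespace Pool.Agent.X205.CE

open Filter Topology MeasureTheory

variable {X : Type*} [NormedAddCommGroup X] [NormedSpace ℝ X] {F : Type*} [NormedAddCommGroup F]
  [NormedSpace ℝ F]

/-- Lipschitz maps -/
def Lpz (K : ℝ) (g : X → F) : Prop := ∀ x y, ‖g x - g y‖ ≤ K * ‖x - y‖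

/-- average over a segment -/
noncomputable def av (s : ℝ) (e : X) (g : X → F) (x : X) : F := s⁻¹ • ∫ t in (0:ℝ)..s, g (x + t • e)

theorem Lpz.cont {K : ℝ} {g : X → F} (h : Lpz K g) : Continuous g := by
  have : LipschitzWith K.toNNReal g := LipschitzWith.of_dist_le_mul fun x y => by
    rw [dist_eq_norm, dist_eq_norm]
    exact (h x y).trans (mul_le_mul_of_nonneg_right (Real.le_coe_toNNReal K) (norm_nonneg _))
  exact this.continuous

theorem cont_line {g : X → F} (hg : Continuous g) (x e : X) : Continuous fun t : ℝ => g (x + t • e) := by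
  fun_prop

theorem av_diff {s : ℝ} {e : X} {g : X → F} (hg : Continuous g) (x y : X) :
    av s e g x - av s e g y = s⁻¹ • ∫ t in (0:ℝ)..s, (g (x + t • e) - g (y + t • e)) := by
  unfold av
  rw [← smul_sub, intervalIntegral.integral_sub ((cont_line hg x e).intervalIntegrable _ _)
    ((cont_line hg y e).intervalIntegrable _ _)]

theorem norm_avg_le {s : ℝ} (hs : 0 < s) {φ : ℝ → F} {C : ℝ}
    (h : ∀ t, 0 < t → t ≤ s → ‖φ t‖ ≤ C) : ‖s⁻¹ • ∫ t in (0:ℝ)..s, φ t‖ ≤ C := by
  rw [norm_smul, norm_inv, Real.norm_of_nonneg hs.le]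
  have h1 : ‖∫ t in (0:ℝ)..s, φ t‖ ≤ C * |s - 0| :=
    intervalIntegral.norm_integral_le_of_norm_le_const fun t ht => by
      rw [Set.uIoc_of_le hs.le] at ht
      exact h t ht.1 ht.2
  rw [sub_zero, abs_of_pos hs] at h1
  calc s⁻¹ * ‖∫ t in (0:ℝ)..s, φ t‖ ≤ s⁻¹ * (C * s) :=
        mul_le_mul_of_nonneg_left h1 (inv_pos.2 hs).le
    _ = C := by field_simp

theorem Lpz.av {K : ℝ} {g : X → F} (h : Lpz K g) {s : ℝ} (hs : 0 < s) (e : X) :
    Lpz K (av s e g) := by
  intro x y
  rw [av_diff h.cont]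
  refine norm_avg_le hs fun t _ _ => ?_
  have := h (x + t • e) (y + t • e)
  rwa [add_sub_add_right_eq_sub] at this

theorem av_const [CompleteSpace F] {s : ℝ} (hs : 0 < s) (c : F) : s⁻¹ • ∫ _ in (0:ℝ)..s, c = c := by
  rw [intervalIntegral.integral_const, sub_zero, smul_smul, inv_mul_cancel₀ hs.ne', one_smul]

theorem av_close [CompleteSpace F] {K : ℝ} (hK : 0 ≤ K) {g : X → F} (h : Lpz K g) {s : ℝ} (hs : 0 < s) {e : X}
    (he : ‖e‖ ≤ 1) (x : X) : ‖av s e g x - g x‖ ≤ K * s := by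
  have h1 : av s e g x - g x = s⁻¹ • ∫ t in (0:ℝ)..s, (g (x + t • e) - g x) := by
    rw [intervalIntegral.integral_sub ((cont_line h.cont x e).intervalIntegrable _ _)
      intervalIntegrable_const, smul_sub, av_const hs]
    rfl
  rw [h1]
  refine norm_avg_le hs fun t ht ht2 => (h _ _).trans ?_
  rw [add_sub_cancel_left, norm_smul, Real.norm_of_nonneg ht.le]
  refine mul_le_mul_of_nonneg_left ?_ hK
  calc t * ‖e‖ ≤ s * 1 := mul_le_mul ht2 he (norm_nonneg _) hs.le
    _ = s := mul_one s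

/-- second order differentiability in the direction `e` with derivative `d` -/
def Dir (C : ℝ) (e : X) (g d : X → F) : Prop :=
  ∀ (x : X) (t : ℝ), ‖g (x + t • e) - g x - t • d x‖ ≤ C * t ^ 2

theorem Dir.av {C : ℝ} {e' : X} {g d : X → F} (h : Dir C e' g d) (hg : Continuous g)
    (hd : Continuous d) {s : ℝ} (hs : 0 < s) (e : X) : Dir C e' (av s e g) (av s e d) := by
  intro x t
  have h1 : CE.av s e g (x + t • e') - CE.av s e g x - t • CE.av s e d x =
      s⁻¹ • ∫ u in (0:ℝ)..s, (g ((x + t • e') + u • e) - g (x + u • e) - t • d (x + u • e)) := by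
    have i1 := (cont_line hg (x + t • e') e).intervalIntegrable (μ := volume) 0 s
    have i2 := (cont_line hg x e).intervalIntegrable (μ := volume) 0 s
    have i3 : IntervalIntegrable (fun u : ℝ => t • d (x + u • e)) volume 0 s :=
      (show Continuous fun u : ℝ => t • d (x + u • e) by fun_prop).intervalIntegrable _ _
    rw [intervalIntegral.integral_sub (i1.sub i2) i3, intervalIntegral.integral_sub i1 i2,
      intervalIntegral.integral_smul, smul_sub, smul_sub, smul_comm]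
    rfl
  rw [h1]
  refine norm_avg_le hs fun u _ _ => ?_
  have h2 := h (x + u • e) t
  have h3 : x + t • e' + u • e = x + u • e + t • e' := by abel
  rw [h3]
  exact h2

theorem oneD [CompleteSpace F] {φ : ℝ → F} {K : ℝ} (hφ : Continuous φ)
    (h : ∀ u v, ‖φ u - φ v‖ ≤ K * |u - v|)
    (hK : 0 ≤ K) (s t : ℝ) :
    ‖(∫ u in t..(s + t), φ u) - (∫ u in (0:ℝ)..s, φ u) - t • (φ s - φ 0)‖ ≤ 2 * K * t ^ 2 := by
  have I : ∀ a b, IntervalIntegrable φ volume a b := fun a b => hφ.intervalIntegrable a b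
  have key : ∀ a : ℝ, ‖(∫ u in a..(a + t), φ u) - t • φ a‖ ≤ K * t ^ 2 := by
    intro a
    have h1 : (∫ u in a..(a + t), φ u) - t • φ a = ∫ u in a..(a + t), (φ u - φ a) := by
      rw [intervalIntegral.integral_sub (I _ _) intervalIntegrable_const,
        intervalIntegral.integral_const, add_sub_cancel_left]
    rw [h1]
    have h2 : ‖∫ u in a..(a + t), (φ u - φ a)‖ ≤ K * |t| * |a + t - a| :=
      intervalIntegral.norm_integral_le_of_norm_le_const fun u hu => by
        refine (h u a).trans (mul_le_mul_of_nonneg_left ?_ hK)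
        rw [Set.mem_uIoc] at hu
        rcases hu with ⟨h3, h4⟩ | ⟨h3, h4⟩
        · rw [abs_of_pos (by linarith)]
          exact (by linarith : u - a ≤ t).trans (le_abs_self t)
        · rw [abs_of_nonpos (by linarith)]
          have := neg_le_abs t
          linarith
    rw [add_sub_cancel_left, mul_assoc, abs_mul_abs_self] at h2
    rw [pow_two]
    exact h2
  have h1 : (∫ u in t..(s + t), φ u) - (∫ u in (0:ℝ)..s, φ u) =
      (∫ u in s..(s + t), φ u) - (∫ u in (0:ℝ)..(0 + t), φ u) := by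
    have e1 := intervalIntegral.integral_add_adjacent_intervals (I 0 t) (I t (s + t))
    have e2 := intervalIntegral.integral_add_adjacent_intervals (I 0 s) (I s (s + t))
    rw [zero_add]
    rw [sub_eq_sub_iff_add_eq_add, add_comm _ (∫ u in (0:ℝ)..t, φ u), e1,
      add_comm _ (∫ u in (0:ℝ)..s, φ u), e2]
  have h2 : (∫ u in t..(s + t), φ u) - (∫ u in (0:ℝ)..s, φ u) - t • (φ s - φ 0) =
      ((∫ u in s..(s + t), φ u) - t • φ s) - ((∫ u in (0:ℝ)..(0 + t), φ u) - t • φ 0) := by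
    rw [h1, smul_sub]
    abel
  rw [h2]
  calc _ ≤ K * t ^ 2 + K * t ^ 2 := (norm_sub_le _ _).trans (add_le_add (key s) (key 0))
    _ = 2 * K * t ^ 2 := by ring

theorem Dir_own [CompleteSpace F] {K : ℝ} (hK : 0 ≤ K) {g : X → F} (h : Lpz K g) {s : ℝ} (hs : 0 < s) {e : X}
    (he : ‖e‖ ≤ 1) : Dir (2 * K * s⁻¹) e (av s e g) (fun x => s⁻¹ • (g (x + s • e) - g x)) := by
  intro x t
  set φ : ℝ → F := fun u => g (x + u • e) with hφ
  have hφl : ∀ u v, ‖φ u - φ v‖ ≤ K * |u - v| := by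
    intro u v
    refine (h _ _).trans (mul_le_mul_of_nonneg_left ?_ hK)
    rw [add_sub_add_left_eq_sub, ← sub_smul, norm_smul, Real.norm_eq_abs]
    exact mul_le_of_le_one_right (abs_nonneg _) he
  have h1 : ∫ u in (0:ℝ)..s, g (x + t • e + u • e) = ∫ u in t..(s + t), φ u := by
    have h2 : (fun u : ℝ => g (x + t • e + u • e)) = fun u => φ (u + t) := by
      funext u
      rw [hφ]
      show g (x + t • e + u • e) = g (x + (u + t) • e)
      rw [add_smul, add_assoc, add_comm (t • e)]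
    rw [h2, intervalIntegral.integral_comp_add_right (fun u => φ u), zero_add]
  have h2 : av s e g (x + t • e) - av s e g x - t • s⁻¹ • (g (x + s • e) - g x) =
      s⁻¹ • ((∫ u in t..(s + t), φ u) - (∫ u in (0:ℝ)..s, φ u) - t • (φ s - φ 0)) := by
    have h3 : φ 0 = g x := by rw [hφ]; simp
    have h4 : φ s = g (x + s • e) := rfl
    rw [h3, h4, smul_comm t s⁻¹]
    unfold av
    rw [h1, ← smul_sub, ← smul_sub]
  show ‖av s e g (x + t • e) - av s e g x - t • s⁻¹ • (g (x + s • e) - g x)‖ ≤ _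
  rw [h2, norm_smul, norm_inv, Real.norm_of_nonneg hs.le]
  have h3 := oneD (cont_line h.cont x e) hφl hK s t
  calc s⁻¹ * _ ≤ s⁻¹ * (2 * K * t ^ 2) := mul_le_mul_of_nonneg_left h3 (inv_pos.2 hs).le
    _ = 2 * K * s⁻¹ * t ^ 2 := by ring

theorem Lpz_own {K : ℝ} {g : X → F} (h : Lpz K g) {s : ℝ} (hs : 0 < s) (e : X) :
    Lpz (2 * K * s⁻¹) (fun x => s⁻¹ • (g (x + s • e) - g x)) := by
  intro x y
  show ‖s⁻¹ • (g (x + s • e) - g x) - s⁻¹ • (g (y + s • e) - g y)‖ ≤ _
  rw [← smul_sub, norm_smul, norm_inv, Real.norm_of_nonneg hs.le]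
  have h1 := h (x + s • e) (y + s • e)
  rw [add_sub_add_right_eq_sub] at h1
  have h2 := h x y
  have h3 : g (x + s • e) - g x - (g (y + s • e) - g y) =
      (g (x + s • e) - g (y + s • e)) - (g x - g y) := by abel
  rw [h3]
  calc s⁻¹ * _ ≤ s⁻¹ * (K * ‖x - y‖ + K * ‖x - y‖) :=
        mul_le_mul_of_nonneg_left ((norm_sub_le _ _).trans (add_le_add h1 h2)) (inv_pos.2 hs).le
    _ = 2 * K * s⁻¹ * ‖x - y‖ := by ring

section iter

variable (e : ℕ → X)

/-- iterated averages -/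
noncomputable def itr (g : X → F) (a : ℕ) : ℕ → X → F
  | 0 => g
  | k + 1 => av ((1/2 : ℝ) ^ (a + k)) (e (a + k)) (itr g a k)

variable {e}

theorem itr_lip {K : ℝ} {g : X → F} (h : Lpz K g) (a k : ℕ) : Lpz K (itr e g a k) := by
  induction k with
  | zero => exact h
  | succ k ih => exact ih.av (by positivity) _

theorem itr_step [CompleteSpace F] (he : ∀ n, ‖e n‖ ≤ 1) {K : ℝ} (hK : 0 ≤ K) {g : X → F}
    (h : Lpz K g) (a k : ℕ) (x : X) :
    ‖itr e g a (k + 1) x - itr e g a k x‖ ≤ K * (1/2) ^ a * (1/2) ^ k := by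
  rw [mul_assoc, ← pow_add]
  exact av_close hK (itr_lip h a k) (by positivity) (he _) x

theorem itr_tendsto [CompleteSpace F] (he : ∀ n, ‖e n‖ ≤ 1) {K : ℝ} (hK : 0 ≤ K) {g : X → F}
    (h : Lpz K g) (a : ℕ) (x : X) : ∃ y, Tendsto (fun k => itr e g a k x) atTop (𝓝 y) := by
  refine cauchySeq_tendsto_of_complete
    (cauchySeq_of_le_geometric (1/2) (K * (1/2) ^ a) (by norm_num) fun k => ?_)
  rw [dist_comm, dist_eq_norm]
  exact itr_step he hK h a k x

theorem itr_dir {C K K' : ℝ} {e' : X} {g d : X → F} (h : Dir C e' g d) (hg : Lpz K g)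
    (hd : Lpz K' d) (a k : ℕ) : Dir C e' (itr e g a k) (itr e d a k) := by
  induction k with
  | zero => exact h
  | succ k ih => exact ih.av (itr_lip hg a k).cont (itr_lip hd a k).cont (by positivity) _

theorem itr_split (g : X → F) (j k : ℕ) : itr e g 0 (j + k) = itr e (itr e g 0 j) j k := by
  induction k with
  | zero => rfl
  | succ k ih =>
    show av ((1/2 : ℝ) ^ (0 + (j + k))) (e (0 + (j + k))) (itr e g 0 (j + k)) =
      av ((1/2 : ℝ) ^ (j + k)) (e (j + k)) (itr e (itr e g 0 j) j k)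
    rw [ih, zero_add]

end iter

/-- A Lipschitz map on a normed space can be approximated by one which is differentiable along a
given sequence of directions, with second order estimates and Lipschitz derivatives. -/
theorem exists_smooth [CompleteSpace F] (e : ℕ → X) (he : ∀ n, ‖e n‖ ≤ 1) {K : ℝ} (hK : 0 ≤ K)
    {g : X → F} (h : Lpz K g) :
    ∃ (Φ : X → F) (Ψ : ℕ → X → F) (C : ℕ → ℝ), Lpz K Φ ∧ (∀ j, Lpz (C j) (Ψ j)) ∧
      (∀ j, Dir (C j) (e j) Φ (Ψ j)) ∧
      ∀ (Z : Type) [NormedAddCommGroup Z] [NormedSpace ℝ Z] [CompleteSpace Z] (β : F →L[ℝ] Z)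
        (w : X → Z), (∀ x y, β (g x) - β (g y) = w (x - y)) →
        ∀ x y, β (Φ x) - β (Φ y) = w (x - y) := by
  choose Φ hΦ using itr_tendsto he hK h 0
  have hd : ∀ j, Lpz (2 * K * ((1/2 : ℝ) ^ j)⁻¹)
      (fun x => ((1/2 : ℝ) ^ j)⁻¹ • (itr e g 0 j (x + (1/2 : ℝ) ^ j • e j) - itr e g 0 j x)) :=
    fun j => Lpz_own (itr_lip h 0 j) (by positivity) _
  have hK' : ∀ j : ℕ, 0 ≤ 2 * K * ((1/2 : ℝ) ^ j)⁻¹ := fun j => by positivity
  choose Ψ hΨ using fun j => itr_tendsto he (hK' j) (hd j) (j + 1)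
  refine ⟨Φ, Ψ, fun j => 2 * K * ((1/2 : ℝ) ^ j)⁻¹, ?_, ?_, ?_, ?_⟩
  · intro x y
    exact le_of_tendsto ((hΦ x).sub (hΦ y)).norm
      (Eventually.of_forall fun k => itr_lip h 0 k x y)
  · intro j x y
    exact le_of_tendsto ((hΨ j x).sub (hΨ j y)).norm
      (Eventually.of_forall fun k => itr_lip (hd j) (j + 1) k x y)
  · intro j x t
    have h1 : ∀ y, Tendsto (fun k => itr e (itr e g 0 (j + 1)) (j + 1) k y) atTop (𝓝 (Φ y)) := by
      intro y
      have h2 : (fun k => itr e (itr e g 0 (j + 1)) (j + 1) k y) =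
          fun k => itr e g 0 (k + (j + 1)) y := by
        funext k
        rw [← itr_split, add_comm k]
      rw [h2]
      exact (hΦ y).comp (tendsto_add_atTop_nat (j + 1))
    have h3 : Dir (2 * K * ((1/2 : ℝ) ^ j)⁻¹) (e j) (itr e g 0 (j + 1))
        (fun x => ((1/2 : ℝ) ^ j)⁻¹ • (itr e g 0 j (x + (1/2 : ℝ) ^ j • e j) - itr e g 0 j x)) := by
      have h4 := Dir_own hK (itr_lip (e := e) h 0 j) (s := (1/2 : ℝ) ^ j) (by positivity) (he j)
      show Dir _ _ (av ((1/2 : ℝ) ^ (0 + j)) (e (0 + j)) (itr e g 0 j)) _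
      rw [zero_add]
      exact h4
    exact le_of_tendsto ((((h1 _).sub (h1 x)).sub ((hΨ j x).const_smul t)).norm)
      (Eventually.of_forall fun k => itr_dir h3 (itr_lip h 0 (j + 1)) (hd j) (j + 1) k x t)
  · intro Z _ _ _ β w hw x y
    have h1 : ∀ k x y, β (itr e g 0 k x) - β (itr e g 0 k y) = w (x - y) := by
      intro k
      induction k with
      | zero => exact hw
      | succ k ih =>
        intro x y
        show β (av _ _ (itr e g 0 k) x) - β (av _ _ (itr e g 0 k) y) = _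
        have hc := (itr_lip (e := e) h 0 k).cont
        rw [← map_sub, av_diff hc, map_smul, ← ContinuousLinearMap.intervalIntegral_comp_comm]
        · have h2 : ∀ t : ℝ, β (itr e g 0 k (x + t • e (0 + k)) - itr e g 0 k (y + t • e (0 + k))) =
              w (x - y) := by
            intro t
            rw [map_sub, ih, add_sub_add_right_eq_sub]
          simp only [h2]
          exact av_const (by positivity) _
        · exact ((cont_line hc x _).sub (cont_line hc y _)).intervalIntegrable _ _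
    have h2 : Tendsto (fun k => β (itr e g 0 k x) - β (itr e g 0 k y)) atTop
        (𝓝 (β (Φ x) - β (Φ y))) :=
      ((β.continuous.tendsto _).comp (hΦ x)).sub ((β.continuous.tendsto _).comp (hΦ y))
    simp only [h1] at h2
    exact tendsto_nhds_unique h2 tendsto_const_nhds

/-- The derivatives at the origin of the smoothed map depend linearly on the direction, in the
quantitative form `‖∑ a_j Ψ_j(0)‖ ≤ K ‖∑ a_j e_j‖`. -/
theorem norm_comb_le {e : ℕ → X} {K : ℝ} {Φ : X → F} {Ψ : ℕ → X → F} {C : ℕ → ℝ}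
    (hΦ : Lpz K Φ) (hΨ : ∀ j, Lpz (C j) (Ψ j)) (hD : ∀ j, Dir (C j) (e j) Φ (Ψ j))
    (J : Finset ℕ) (a : ℕ → ℝ) : ‖∑ j ∈ J, a j • Ψ j 0‖ ≤ K * ‖∑ j ∈ J, a j • e j‖ := by
  have h1 : ∃ B : ℝ, ∀ t : ℝ, ‖Φ (t • ∑ j ∈ J, a j • e j) - Φ 0 - t • ∑ j ∈ J, a j • Ψ j 0‖ ≤
      B * t ^ 2 := by
    induction J using Finset.induction_on with
    | empty => exact ⟨0, fun t => by simp⟩
    | insert k J hk ih =>
      obtain ⟨B, hB⟩ := ih
      refine ⟨B + C k * (a k) ^ 2 + |a k| * (C k * ‖∑ j ∈ J, a j • e j‖), fun t => ?_⟩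
      rw [Finset.sum_insert hk, Finset.sum_insert hk]
      set v := ∑ j ∈ J, a j • e j with hv
      set w := ∑ j ∈ J, a j • Ψ j 0 with hw
      have e1 := hD k (t • v) (t * a k)
      have e2 := hΨ k (t • v) 0
      rw [sub_zero, norm_smul, Real.norm_eq_abs] at e2
      have e3 : Φ (t • (a k • e k + v)) - Φ 0 - t • (a k • Ψ k 0 + w) =
          (Φ (t • v + (t * a k) • e k) - Φ (t • v) - (t * a k) • Ψ k (t • v)) +
          (Φ (t • v) - Φ 0 - t • w) + (t * a k) • (Ψ k (t • v) - Ψ k 0) := by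
        have : t • (a k • e k + v) = t • v + (t * a k) • e k := by
          rw [smul_add, smul_smul, add_comm]
        rw [this, smul_add, smul_sub, smul_smul]
        abel
      rw [e3]
      have e4 : ‖(t * a k) • (Ψ k (t • v) - Ψ k 0)‖ ≤ |a k| * (C k * ‖v‖) * t ^ 2 := by
        rw [norm_smul, Real.norm_eq_abs, abs_mul]
        calc |t| * |a k| * ‖Ψ k (t • v) - Ψ k 0‖ ≤ |t| * |a k| * (C k * (|t| * ‖v‖)) :=
              mul_le_mul_of_nonneg_left e2 (by positivity)
          _ = |a k| * (C k * ‖v‖) * (|t| * |t|) := by ring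
          _ = |a k| * (C k * ‖v‖) * t ^ 2 := by rw [abs_mul_abs_self, pow_two]
      calc _ ≤ C k * (t * a k) ^ 2 + B * t ^ 2 + |a k| * (C k * ‖v‖) * t ^ 2 :=
            (norm_add_le _ _).trans (add_le_add ((norm_add_le _ _).trans (add_le_add e1 (hB t))) e4)
        _ = (B + C k * (a k) ^ 2 + |a k| * (C k * ‖v‖)) * t ^ 2 := by ring
  obtain ⟨B, hB⟩ := h1
  set v := ∑ j ∈ J, a j • e j with hv
  set w := ∑ j ∈ J, a j • Ψ j 0 with hw
  have h2 : ∀ t : ℝ, 0 < t → ‖w‖ ≤ K * ‖v‖ + B * t := by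
    intro t ht
    have h3 := hB t
    have h4 := hΦ (t • v) 0
    rw [sub_zero, norm_smul, Real.norm_of_nonneg ht.le] at h4
    have h5 : ‖t • w‖ ≤ K * (t * ‖v‖) + B * t ^ 2 := by
      have : t • w = (Φ (t • v) - Φ 0) - (Φ (t • v) - Φ 0 - t • w) := by abel
      rw [this]
      exact (norm_sub_le _ _).trans (add_le_add h4 h3)
    rw [norm_smul, Real.norm_of_nonneg ht.le] at h5
    have h6 : t * ‖w‖ ≤ t * (K * ‖v‖ + B * t) := by
      calc t * ‖w‖ ≤ K * (t * ‖v‖) + B * t ^ 2 := h5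
        _ = t * (K * ‖v‖ + B * t) := by ring
    exact le_of_mul_le_mul_left h6 ht
  have h3 : Tendsto (fun t : ℝ => K * ‖v‖ + B * t) (𝓝[>] 0) (𝓝 (K * ‖v‖ + B * 0)) :=
    ((continuous_const.add (continuous_const.mul continuous_id)).tendsto 0).mono_left
      nhdsWithin_le_nhds
  rw [mul_zero, add_zero] at h3
  exact ge_of_tendsto h3 (eventually_nhdsWithin_of_forall fun t ht => h2 t ht)

end Pool.Agent.X205.CE
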