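import Pool.Agent.X205.CE.Lift

set_option autoImplicit false
set_option linter.unusedSectionVars false

/-! Simultaneous mollification of a sequence of Lipschitz functions on `ℝ^k`. -/

namespace Pool.Agent.X205.CE

open Filter Topology MeasureTheory ContinuousLinearMap
open scoped Convolution ContDiff

variable {k : ℕ}

theorem exists_moll (φ : ℕ → (Fin k → ℝ) → ℝ) {K : ℝ} (hφ : ∀ j, Lpz K (φ j)) (hK : 0 ≤ K)
    {t : ℝ} (ht : 0 < t) :
    ∃ g : ℕ → (Fin k → ℝ) → ℝ, (∀ j, ContDiff ℝ ∞ (g j)) ∧ (∀ j x, |g j x - φ j x| ≤ K * t) ∧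
      ∀ (J : Finset ℕ) (θ : ℕ → ℝ) (W : ℝ),
        (∀ x y, |∑ j ∈ J, θ j * (φ j x - φ j y)| ≤ W * ‖x - y‖) →
        ∀ x y, |∑ j ∈ J, θ j * (g j x - g j y)| ≤ W * ‖x - y‖ := by
  let b : ContDiffBump (0 : Fin k → ℝ) := ⟨t / 2, t, by positivity, by linarith⟩
  set ρ : (Fin k → ℝ) → ℝ := b.normed volume with hρ
  have hcont : ∀ j, Continuous (φ j) := fun j => (hφ j).cont
  have hρc : Continuous ρ := b.continuous_normed
  have hρs : HasCompactSupport ρ := b.hasCompactSupport_normed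
  have hρ0 : ∀ x, 0 ≤ ρ x := b.nonneg_normed
  have hρ1 : ∫ x, ρ x = 1 := b.integral_normed
  refine ⟨fun j => (ρ ⋆[lsmul ℝ ℝ, volume] φ j : (Fin k → ℝ) → ℝ), fun j => ?_, fun j x => ?_, ?_⟩
  · exact hρs.contDiff_convolution_left _ b.contDiff_normed (hcont j).locallyIntegrable
  · have h1 := b.dist_normed_convolution_le (μ := volume) (g := φ j) (x₀ := x) (ε := K * t)
      (hcont j).aestronglyMeasurable fun y hy => by
        rw [dist_eq_norm]
        refine (hφ j y x).trans (mul_le_mul_of_nonneg_left ?_ hK)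
        rw [Metric.mem_ball, dist_eq_norm] at hy
        exact hy.le
    rw [Real.dist_eq] at h1
    exact h1
  · intro J θ W hW x y
    have hi : ∀ j (z : Fin k → ℝ), Integrable fun s => ρ s * φ j (z - s) := by
      intro j z
      refine Continuous.integrable_of_hasCompactSupport ?_ (hρs.mul_right)
      exact hρc.mul ((hcont j).comp (continuous_const.sub continuous_id))
    have hg : ∀ j z, (ρ ⋆[lsmul ℝ ℝ, volume] φ j : (Fin k → ℝ) → ℝ) z = ∫ s, ρ s * φ j (z - s) := by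
      intro j z
      rfl
    have h1 : ∑ j ∈ J, θ j * ((ρ ⋆[lsmul ℝ ℝ, volume] φ j : (Fin k → ℝ) → ℝ) x -
        (ρ ⋆[lsmul ℝ ℝ, volume] φ j : (Fin k → ℝ) → ℝ) y) =
        ∫ s, ρ s * ∑ j ∈ J, θ j * (φ j (x - s) - φ j (y - s)) := by
      have h2 : ∀ j ∈ J, θ j * ((ρ ⋆[lsmul ℝ ℝ, volume] φ j : (Fin k → ℝ) → ℝ) x -
          (ρ ⋆[lsmul ℝ ℝ, volume] φ j : (Fin k → ℝ) → ℝ) y) =
          ∫ s, θ j * (ρ s * φ j (x - s) - ρ s * φ j (y - s)) := by
        intro j _
        rw [hg, hg, ← integral_sub (hi j x) (hi j y), integral_const_mul]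
      have hi2 : ∀ j ∈ J, Integrable fun s => θ j * (ρ s * φ j (x - s) - ρ s * φ j (y - s)) :=
        fun j _ => ((hi j x).sub (hi j y)).const_mul (θ j)
      rw [Finset.sum_congr rfl h2, ← integral_finsetSum _ hi2]
      congr 1
      funext s
      rw [Finset.mul_sum]
      exact Finset.sum_congr rfl fun j _ => by ring
    rw [h1, ← Real.norm_eq_abs]
    have h3 : ∀ s, ‖ρ s * ∑ j ∈ J, θ j * (φ j (x - s) - φ j (y - s))‖ ≤ ρ s * (W * ‖x - y‖) := by
      intro s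
      rw [norm_mul, Real.norm_of_nonneg (hρ0 s), Real.norm_eq_abs]
      refine mul_le_mul_of_nonneg_left ?_ (hρ0 s)
      have := hW (x - s) (y - s)
      rwa [sub_sub_sub_cancel_right] at this
    have hρi : Integrable ρ := hρc.integrable_of_hasCompactSupport hρs
    calc ‖∫ s, ρ s * ∑ j ∈ J, θ j * (φ j (x - s) - φ j (y - s))‖
        ≤ ∫ s, ρ s * (W * ‖x - y‖) :=
          norm_integral_le_of_norm_le (hρi.mul_const _) (Eventually.of_forall h3)
      _ = W * ‖x - y‖ := by rw [integral_mul_const, hρ1, one_mul]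

/-- from signed sums to sums of absolute values of directional derivatives -/
theorem sum_abs_fderiv_le {E : Type*} [NormedAddCommGroup E] [NormedSpace ℝ E] {g : ℕ → E → ℝ}
    (hg : ∀ j, Differentiable ℝ (g j)) (J : Finset ℕ) {W : ℝ} (hW0 : 0 ≤ W)
    (hW : ∀ θ : ℕ → ℝ, (∀ j, |θ j| ≤ 1) → ∀ x y, |∑ j ∈ J, θ j * (g j x - g j y)| ≤ W * ‖x - y‖)
    (x v : E) : ∑ j ∈ J, |fderiv ℝ (g j) x v| ≤ W * ‖v‖ := by
  set θ : ℕ → ℝ := fun j => if 0 ≤ fderiv ℝ (g j) x v then 1 else -1 with hθ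
  have hθ1 : ∀ j, |θ j| ≤ 1 := fun j => by
    rw [hθ]
    dsimp only
    split_ifs <;> simp
  have hθ2 : ∀ j, θ j * fderiv ℝ (g j) x v = |fderiv ℝ (g j) x v| := fun j => by
    rw [hθ]
    dsimp only
    split_ifs with h
    · rw [abs_of_nonneg h, one_mul]
    · rw [abs_of_neg (not_le.1 h)]; ring
  have hG : HasFDerivAt (fun z => ∑ j ∈ J, θ j * g j z) (∑ j ∈ J, θ j • fderiv ℝ (g j) x) x := by
    have := HasFDerivAt.fun_sum (u := J) (A := fun j z => θ j * g j z)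
      (A' := fun j => θ j • fderiv ℝ (g j) x) (x := x) (𝕜 := ℝ)
      fun j _ => ((hg j x).hasFDerivAt).const_mul (θ j)
    exact this
  have h1 : ‖fderiv ℝ (fun z => ∑ j ∈ J, θ j * g j z) x‖ ≤ W := by
    refine norm_fderiv_le_of_lip' ℝ hW0 (Eventually.of_forall fun y => ?_)
    have h2 := hW θ hθ1 y x
    have h3 : ∑ j ∈ J, θ j * g j y - ∑ j ∈ J, θ j * g j x = ∑ j ∈ J, θ j * (g j y - g j x) := by
      rw [← Finset.sum_sub_distrib]
      exact Finset.sum_congr rfl fun j _ => by ring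
    rw [Real.norm_eq_abs, h3]
    exact h2
  have h2 : fderiv ℝ (fun z => ∑ j ∈ J, θ j * g j z) x v = ∑ j ∈ J, |fderiv ℝ (g j) x v| := by
    rw [hG.fderiv, sum_apply]
    exact Finset.sum_congr rfl fun j _ => by
      rw [smul_apply, smul_eq_mul, hθ2]
  rw [← h2]
  exact (le_abs_self _).trans (((fderiv ℝ (fun z => ∑ j ∈ J, θ j * g j z) x).le_opNorm v).trans
    (mul_le_mul_of_nonneg_right h1 (norm_nonneg v)))

end Pool.Agent.X205.CE
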