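import Pool.Agent.X205.CE.Moll
import Pool.Agent.X205.CE.Ctrl

set_option autoImplicit false
set_option linter.unusedSectionVars false

/-! The inductive step of the construction for compact convex sets in `ℝ^k`. -/

namespace Pool.Agent.X205.CE

open Filter Topology MeasureTheory
open scoped ContDiff
open Pool.Agent.TH326.Free (IsFree)

theorem SmallSums.tendsto_apply {X : Type*} [NormedAddCommGroup X] [NormedSpace ℝ X]
    {f : ℕ → (X →L[ℝ] ℝ)} (hf : SmallSums f) (z : X) {ε : ℝ} (hε : 0 < ε) :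
    ∀ᶠ j in atTop, |f j z| ≤ ε := by
  by_contra hcon
  have h1 : ∃ᶠ j in atTop, ε < |f j z| := by
    intro h2
    exact hcon (h2.mono fun j hj => not_lt.1 hj)
  obtain ⟨φ, hφ, hφ2⟩ := extraction_of_frequently_atTop h1
  obtain ⟨om, w1, w2⟩ := hf.comp hφ.injective
  obtain ⟨n, hn, hn2⟩ := w1 (ε / (‖z‖ + 1)) (by positivity)
  set θ : ℕ → ℝ := fun j => if 0 ≤ f (φ j) z then 1 else -1 with hθ
  have hθ1 : ∀ j, |θ j| ≤ 1 := fun j => by
    rw [hθ]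
    dsimp only
    split_ifs <;> simp
  have hθ2 : ∀ j, θ j * f (φ j) z = |f (φ j) z| := fun j => by
    rw [hθ]
    dsimp only
    split_ifs with h
    · rw [abs_of_nonneg h, one_mul]
    · rw [abs_of_neg (not_le.1 h)]; ring
  have h3 := w2 (Finset.range n) θ hθ1
  rw [Finset.card_range] at h3
  have h4 : (∑ j ∈ Finset.range n, θ j • f (φ j)) z = ∑ j ∈ Finset.range n, |f (φ j) z| := by
    rw [sum_apply]
    exact Finset.sum_congr rfl fun j _ => by rw [smul_apply, smul_eq_mul, hθ2]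
  have h5 : ∑ j ∈ Finset.range n, |f (φ j) z| ≤ om n * ‖z‖ := by
    rw [← h4]
    exact (le_abs_self _).trans ((ContinuousLinearMap.le_opNorm _ z).trans
      (mul_le_mul_of_nonneg_right h3 (norm_nonneg z)))
  have h6 : ∑ j ∈ Finset.range n, ε < ∑ j ∈ Finset.range n, |f (φ j) z| :=
    Finset.sum_lt_sum_of_nonempty ⟨0, Finset.mem_range.2 hn⟩ fun j _ => hφ2 j
  rw [Finset.sum_const, Finset.card_range, nsmul_eq_mul] at h6
  have h7 : om n * ‖z‖ ≤ n * ε := by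
    calc om n * ‖z‖ ≤ ε / (‖z‖ + 1) * n * ‖z‖ := mul_le_mul_of_nonneg_right hn2 (norm_nonneg z)
      _ = (‖z‖ / (‖z‖ + 1)) * (n * ε) := by ring
      _ ≤ 1 * (n * ε) := by
          refine mul_le_mul_of_nonneg_right ?_ (by positivity)
          rw [div_le_one (by positivity)]
          linarith
      _ = n * ε := one_mul _
  linarith

theorem unif_small {E : Type*} [NormedAddCommGroup E] [NormedSpace ℝ E] {B : Set E}
    (hB : IsCompact B) {φ : ℕ → E → ℝ} {K : ℝ} (hK : 0 < K) (hφ : ∀ j, Lpz K (φ j))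
    (hpt : ∀ x ∈ B, ∀ ε : ℝ, 0 < ε → ∀ᶠ j in atTop, |φ j x| ≤ ε) {ε : ℝ} (hε : 0 < ε) :
    ∀ᶠ j in atTop, ∀ x ∈ B, |φ j x| ≤ ε := by
  obtain ⟨t, ht1, ht2⟩ := hB.elim_nhds_subcover (fun x => Metric.ball x (ε / (2 * K)))
    fun x _ => Metric.ball_mem_nhds x (by positivity)
  have h1 : ∀ᶠ j in atTop, ∀ x ∈ t, |φ j x| ≤ ε / 2 := by
    rw [Finset.eventually_all]
    exact fun x hx => hpt x (ht1 x hx) (ε / 2) (by positivity)
  refine h1.mono fun j hj x hx => ?_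
  obtain ⟨y, hy, hxy⟩ := Set.mem_iUnion₂.1 (ht2 hx)
  rw [Metric.mem_ball, dist_eq_norm] at hxy
  have h2 := hφ j x y
  rw [Real.norm_eq_abs] at h2
  have h3 : K * ‖x - y‖ ≤ ε / 2 := by
    calc K * ‖x - y‖ ≤ K * (ε / (2 * K)) := mul_le_mul_of_nonneg_left hxy.le hK.le
      _ = ε / 2 := by field_simp
  have h4 := hj y hy
  have h5 : |φ j x| ≤ |φ j x - φ j y| + |φ j y| := by
    have := abs_add_le (φ j x - φ j y) (φ j y)
    rwa [sub_add_cancel] at this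
  linarith

/-- the coordinate vectors -/
def cv {k : ℕ} (i : Fin k) : Fin k → ℝ := fun j => if i = j then 1 else 0

theorem norm_cv_le {k : ℕ} (i : Fin k) : ‖cv i‖ ≤ 1 := by
  rw [pi_norm_le_iff_of_nonneg zero_le_one]
  intro j
  unfold cv
  split_ifs <;> simp

/-- smooth majorant of the norm of the gradient -/
noncomputable def maj {k : ℕ} (g : (Fin k → ℝ) → ℝ) (τ : ℝ) (x : Fin k → ℝ) : ℝ :=
  √((k + 1) * ∑ i, (fderiv ℝ g x (cv i)) ^ 2 + τ ^ 2)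

theorem maj_contDiff {k : ℕ} {g : (Fin k → ℝ) → ℝ} (hg : ContDiff ℝ ∞ g) {τ : ℝ} (hτ : 0 < τ) :
    ContDiff ℝ ∞ (maj g τ) := by
  unfold maj
  refine ContDiff.sqrt ?_ fun x => ?_
  · refine (contDiff_const.mul (ContDiff.sum fun i _ => ?_)).add contDiff_const
    refine ContDiff.pow ?_ 2
    exact (hg.fderiv_right (m := ∞) (by simp)).clm_apply contDiff_const
  · have : 0 ≤ ((k : ℝ) + 1) * ∑ i, (fderiv ℝ g x (cv i)) ^ 2 := by positivity
    positivity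

theorem norm_fderiv_le_maj {k : ℕ} (g : (Fin k → ℝ) → ℝ) (τ : ℝ) (x : Fin k → ℝ) :
    ‖fderiv ℝ g x‖ ≤ maj g τ x := by
  refine ContinuousLinearMap.opNorm_le_bound _ (Real.sqrt_nonneg _) fun v => ?_
  have h1 : fderiv ℝ g x v = ∑ i, v i * fderiv ℝ g x (cv i) := by
    have := LinearMap.pi_apply_eq_sum_univ (fderiv ℝ g x : (Fin k → ℝ) →ₗ[ℝ] ℝ) v
    exact this
  rw [h1, Real.norm_eq_abs]
  have h2 : |∑ i, v i * fderiv ℝ g x (cv i)| ≤ (∑ i, |fderiv ℝ g x (cv i)|) * ‖v‖ := by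
    refine (Finset.abs_sum_le_sum_abs _ _).trans ?_
    rw [Finset.sum_mul]
    refine Finset.sum_le_sum fun i _ => ?_
    rw [abs_mul, mul_comm]
    refine mul_le_mul_of_nonneg_left ?_ (abs_nonneg _)
    exact norm_le_pi_norm v i
  refine h2.trans (mul_le_mul_of_nonneg_right ?_ (norm_nonneg v))
  refine Real.le_sqrt_of_sq_le ?_
  have h3 : (∑ i, |fderiv ℝ g x (cv i)|) ^ 2 ≤ (k : ℝ) * ∑ i, (fderiv ℝ g x (cv i)) ^ 2 := by
    have := sq_sum_le_card_mul_sum_sq (s := (Finset.univ : Finset (Fin k)))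
      (f := fun i => |fderiv ℝ g x (cv i)|)
    simpa [sq_abs] using this
  have h4 : 0 ≤ ∑ i, (fderiv ℝ g x (cv i)) ^ 2 := by positivity
  have h5 : 0 ≤ τ ^ 2 := by positivity
  nlinarith

theorem maj_le {k : ℕ} (g : (Fin k → ℝ) → ℝ) {τ : ℝ} (hτ : 0 ≤ τ) (x : Fin k → ℝ) :
    maj g τ x ≤ (k + 1) * ∑ i, |fderiv ℝ g x (cv i)| + τ := by
  set S := ∑ i, |fderiv ℝ g x (cv i)| with hS
  have hS0 : 0 ≤ S := by positivity
  have h1 : ∑ i, (fderiv ℝ g x (cv i)) ^ 2 ≤ S ^ 2 := by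
    rw [pow_two S]
    nth_rewrite 2 [hS]
    rw [Finset.mul_sum]
    refine Finset.sum_le_sum fun i _ => ?_
    rw [← sq_abs, pow_two]
    refine mul_le_mul_of_nonneg_right ?_ (abs_nonneg _)
    exact Finset.single_le_sum (f := fun i => |fderiv ℝ g x (cv i)|) (fun _ _ => abs_nonneg _)
      (Finset.mem_univ i)
  unfold maj
  rw [Real.sqrt_le_left (by positivity)]
  have hk : (0 : ℝ) ≤ k := Nat.cast_nonneg k
  have h2 : ((k : ℝ) + 1) * S ^ 2 ≤ ((k : ℝ) + 1) ^ 2 * S ^ 2 := by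
    refine mul_le_mul_of_nonneg_right ?_ (by positivity)
    nlinarith
  have h3 : 0 ≤ ((k : ℝ) + 1) * S * τ := by positivity
  have h4 : ((k : ℝ) + 1) * ∑ i, (fderiv ℝ g x (cv i)) ^ 2 ≤ ((k : ℝ) + 1) * S ^ 2 :=
    mul_le_mul_of_nonneg_left h1 (by positivity)
  nlinarith

theorem maj_le_one {k : ℕ} {g : (Fin k → ℝ) → ℝ} {τ Kf : ℝ} (hτ : 0 ≤ τ) (hτ1 : τ ≤ 1 / 2)
    (hKf : 0 ≤ Kf) (hKf2 : Kf * (k + 1) ≤ 1 / 4) (x : Fin k → ℝ) (h : ‖fderiv ℝ g x‖ ≤ Kf) :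
    maj g τ x ≤ 1 := by
  have hi : ∀ i : Fin k, |fderiv ℝ g x (cv i)| ≤ Kf := fun i => by
    calc |fderiv ℝ g x (cv i)| ≤ ‖fderiv ℝ g x‖ * ‖cv i‖ := (fderiv ℝ g x).le_opNorm _
      _ ≤ Kf * 1 := mul_le_mul h (norm_cv_le i) (norm_nonneg _) hKf
      _ = Kf := mul_one _
  unfold maj
  rw [Real.sqrt_le_left zero_le_one]
  have h1 : ∑ i : Fin k, (fderiv ℝ g x (cv i)) ^ 2 ≤ k * Kf ^ 2 := by
    have : ∑ i : Fin k, (fderiv ℝ g x (cv i)) ^ 2 ≤ ∑ i : Fin k, Kf ^ 2 :=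
      Finset.sum_le_sum fun i _ => by
        rw [← sq_abs]
        exact pow_le_pow_left₀ (abs_nonneg _) (hi i) 2
    simpa using this
  have hk : (0 : ℝ) ≤ k := Nat.cast_nonneg k
  have h2 : ((k : ℝ) + 1) * ∑ i : Fin k, (fderiv ℝ g x (cv i)) ^ 2 ≤ (Kf * (k + 1)) ^ 2 := by
    calc _ ≤ ((k : ℝ) + 1) * (k * Kf ^ 2) := mul_le_mul_of_nonneg_left h1 (by positivity)
      _ ≤ ((k : ℝ) + 1) * ((k + 1) * Kf ^ 2) := by
          refine mul_le_mul_of_nonneg_left ?_ (by positivity)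
          refine mul_le_mul_of_nonneg_right (by linarith) (by positivity)
      _ = (Kf * (k + 1)) ^ 2 := by ring
  have h3 : (Kf * ((k : ℝ) + 1)) ^ 2 ≤ (1 / 4) ^ 2 := pow_le_pow_left₀ (by positivity) hKf2 2
  have h4 : τ ^ 2 ≤ (1 / 2) ^ 2 := pow_le_pow_left₀ hτ hτ1 2
  linarith

end Pool.Agent.X205.CE
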