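import Pool.Agent.X205.CE.BoxMain
import Pool.Agent.W693.LF7

set_option autoImplicit false
set_option linter.unusedSectionVars false

/-! The property `DPS` for the Lipschitz-free space of every finite-dimensional normed space. -/

namespace Pool.Agent.X205.CE

open Filter Topology MeasureTheory
open Pool.Agent.TH326.Free (IsFree)

/-- clamp to an interval -/
def clp (a b t : ℝ) : ℝ := max a (min t b)

theorem clp_mono {a b s t : ℝ} (h : s ≤ t) : clp a b s ≤ clp a b t :=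
  max_le_max le_rfl (min_le_min h le_rfl)

theorem clp_lip (a b s t : ℝ) : |clp a b s - clp a b t| ≤ |s - t| := by
  unfold clp
  calc |max a (min s b) - max a (min t b)| ≤ |min s b - min t b| := by
        rw [max_comm a, max_comm a]
        have := abs_max_sub_max_le_abs (min s b) (min t b) a
        exact this
    _ ≤ |s - t| := by
        have := abs_min_sub_min_le_max s b t b
        simpa using this

theorem clp_split {a b c : ℝ} (hab : a ≤ b) (hbc : b ≤ c) (t : ℝ) :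
    clp a b t + clp b c t = clp a c t + b := by
  unfold clp
  rcases le_total t a with h1 | h1
  · rw [min_eq_left (h1.trans hab), min_eq_left (h1.trans (hab.trans hbc)), max_eq_left h1,
      max_eq_left (h1.trans hab)]
  · rcases le_total t b with h2 | h2
    · rw [min_eq_left h2, min_eq_left (h2.trans hbc), max_eq_right h1, max_eq_left h2]
    · rcases le_total t c with h3 | h3
      · rw [min_eq_right h2, min_eq_left h3, max_eq_right hab, max_eq_right h2, max_eq_right h1]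
        ring
      · rw [min_eq_right h2, min_eq_right h3, max_eq_right hab, max_eq_right hbc,
          max_eq_right (hab.trans hbc)]
        ring

theorem sum_clp (s t : ℝ) (N : ℕ) :
    ∑ n ∈ Finset.range N, (clp (2 ^ n) (2 ^ (n + 1)) t - clp (2 ^ n) (2 ^ (n + 1)) s) =
      clp 1 (2 ^ N) t - clp 1 (2 ^ N) s := by
  induction N with
  | zero =>
    have h : ∀ t : ℝ, clp 1 1 t = 1 := fun t => by
      unfold clp
      exact max_eq_left (min_le_right _ _)
    simp [h]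
  | succ N ih =>
    have h1 : (1 : ℝ) ≤ 2 ^ N := one_le_pow₀ (by norm_num)
    have h2 : (2 : ℝ) ^ N ≤ 2 ^ (N + 1) := pow_le_pow_right₀ (by norm_num) (Nat.le_succ N)
    rw [Finset.sum_range_succ, ih]
    have h3 := clp_split h1 h2 t
    have h4 := clp_split h1 h2 s
    linarith

theorem sum_abs_clp_le (s t : ℝ) (ν : ℕ → ℕ) (hν : Function.Injective ν) (J : Finset ℕ) :
    ∑ i ∈ J, |clp (2 ^ ν i) (2 ^ (ν i + 1)) t - clp (2 ^ ν i) (2 ^ (ν i + 1)) s| ≤ |t - s| := by
  wlog hst : s ≤ t generalizing s t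
  · have := this t s (le_of_not_ge hst)
    rw [abs_sub_comm t s]
    refine le_trans (le_of_eq ?_) this
    exact Finset.sum_congr rfl fun i _ => abs_sub_comm _ _
  obtain ⟨N, hN⟩ : ∃ N, J.map ⟨ν, hν⟩ ⊆ Finset.range N := Finset.exists_nat_subset_range _
  have h1 : ∑ i ∈ J, |clp (2 ^ ν i) (2 ^ (ν i + 1)) t - clp (2 ^ ν i) (2 ^ (ν i + 1)) s| =
      ∑ n ∈ J.map ⟨ν, hν⟩, |clp (2 ^ n) (2 ^ (n + 1)) t - clp (2 ^ n) (2 ^ (n + 1)) s| := by
    rw [Finset.sum_map]
    rfl
  rw [h1]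
  calc _ ≤ ∑ n ∈ Finset.range N, |clp (2 ^ n) (2 ^ (n + 1)) t - clp (2 ^ n) (2 ^ (n + 1)) s| :=
        Finset.sum_le_sum_of_subset_of_nonneg hN fun _ _ _ => abs_nonneg _
    _ = ∑ n ∈ Finset.range N, (clp (2 ^ n) (2 ^ (n + 1)) t - clp (2 ^ n) (2 ^ (n + 1)) s) :=
        Finset.sum_congr rfl fun n _ => abs_of_nonneg (sub_nonneg.2 (clp_mono hst))
    _ = clp 1 (2 ^ N) t - clp 1 (2 ^ N) s := sum_clp s t N
    _ ≤ |t - s| := (le_abs_self _).trans (clp_lip _ _ _ _)

section cut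

variable {E : Type*} [NormedAddCommGroup E] [NormedSpace ℝ E]

/-- cut-off function -/
noncomputable def chi (n : ℕ) (x : E) : ℝ := 2 - clp (2 ^ n) (2 ^ (n + 1)) ‖x‖ / 2 ^ n

theorem chi_nonneg (n : ℕ) (x : E) : 0 ≤ chi n x := by
  unfold chi clp
  have h2 : (0 : ℝ) < 2 ^ n := by positivity
  rw [sub_nonneg, div_le_iff₀ h2]
  have h3 : (2 : ℝ) ^ n ≤ 2 ^ (n + 1) := pow_le_pow_right₀ (by norm_num) (Nat.le_succ n)
  have h4 : (2 : ℝ) * 2 ^ n = 2 ^ (n + 1) := by ring
  rw [h4]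
  exact max_le h3 (min_le_right _ _)

theorem chi_le_one (n : ℕ) (x : E) : chi n x ≤ 1 := by
  unfold chi clp
  have h2 : (0 : ℝ) < 2 ^ n := by positivity
  have : 1 ≤ max (2 ^ n) (min ‖x‖ (2 ^ (n + 1))) / (2 : ℝ) ^ n := by
    rw [le_div_iff₀ h2, one_mul]
    exact le_max_left _ _
  linarith

theorem chi_eq_one {n : ℕ} {x : E} (h : ‖x‖ ≤ 2 ^ n) : chi n x = 1 := by
  unfold chi clp
  have h2 : (0 : ℝ) < 2 ^ n := by positivity
  rw [max_eq_left ((min_le_left _ _).trans h), div_self h2.ne']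
  norm_num

theorem chi_eq_zero {n : ℕ} {x : E} (h : 2 ^ (n + 1) ≤ ‖x‖) : chi n x = 0 := by
  unfold chi clp
  have h2 : (0 : ℝ) < 2 ^ n := by positivity
  have h3 : (2 : ℝ) ^ n ≤ 2 ^ (n + 1) := pow_le_pow_right₀ (by norm_num) (Nat.le_succ n)
  rw [min_eq_right h, max_eq_right h3, pow_succ]
  field_simp
  norm_num

theorem chi_mono (x : E) {m n : ℕ} (h : m ≤ n) : chi m x ≤ chi n x := by
  rcases Nat.eq_or_lt_of_le h with h | h
  · rw [h]
  · rcases le_total ‖x‖ (2 ^ n) with h1 | h1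
    · rw [chi_eq_one h1]; exact chi_le_one _ _
    · have h2 : (2 : ℝ) ^ (m + 1) ≤ ‖x‖ :=
        (pow_le_pow_right₀ (by norm_num) h).trans h1
      rw [chi_eq_zero h2]; exact chi_nonneg _ _

theorem mul_chi_sub_le (n : ℕ) {x y : E} (h : ‖y‖ ≤ ‖x‖) : ‖y‖ * |chi n x - chi n y| ≤
    2 * |clp (2 ^ n) (2 ^ (n + 1)) ‖x‖ - clp (2 ^ n) (2 ^ (n + 1)) ‖y‖| := by
  have h2 : (0 : ℝ) < 2 ^ n := by positivity
  rcases le_total ‖y‖ (2 ^ (n + 1)) with h1 | h1
  · have h3 : chi n x - chi n y = -((clp (2 ^ n) (2 ^ (n + 1)) ‖x‖ -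
        clp (2 ^ n) (2 ^ (n + 1)) ‖y‖) / 2 ^ n) := by
      unfold chi; ring
    rw [h3, abs_neg, abs_div, abs_of_pos h2, mul_div_assoc', div_le_iff₀ h2]
    calc ‖y‖ * |clp (2 ^ n) (2 ^ (n + 1)) ‖x‖ - clp (2 ^ n) (2 ^ (n + 1)) ‖y‖|
        ≤ 2 ^ (n + 1) * |clp (2 ^ n) (2 ^ (n + 1)) ‖x‖ - clp (2 ^ n) (2 ^ (n + 1)) ‖y‖| :=
          mul_le_mul_of_nonneg_right h1 (abs_nonneg _)
      _ = _ := by ring
  · rw [chi_eq_zero (h1.trans h), chi_eq_zero h1, sub_self, abs_zero, mul_zero]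
    positivity

end cut

/-- Lipschitz estimate for cut-offs of maps -/
theorem cut_lip {E G : Type*} [NormedAddCommGroup E] [NormedSpace ℝ E] [NormedAddCommGroup G]
    [NormedSpace ℝ G] {u : E → G} (hu : ∀ x y, ‖u x - u y‖ ≤ ‖x - y‖) (hu0 : ∀ x, ‖u x‖ ≤ ‖x‖)
    (n : ℕ) (x y : E) : ‖chi n x • u x - chi n y • u y‖ ≤ 3 * ‖x - y‖ := by
  wlog hxy : ‖y‖ ≤ ‖x‖ generalizing x y
  · rw [norm_sub_rev, norm_sub_rev x y]
    exact this y x (le_of_not_ge hxy)
  have h1 : chi n x • u x - chi n y • u y =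
      chi n x • (u x - u y) + (chi n x - chi n y) • u y := by
    rw [smul_sub, sub_smul]; abel
  rw [h1]
  refine (norm_add_le _ _).trans ?_
  rw [norm_smul, norm_smul, Real.norm_of_nonneg (chi_nonneg _ _), Real.norm_eq_abs]
  have h2 : chi n x * ‖u x - u y‖ ≤ 1 * ‖x - y‖ :=
    mul_le_mul (chi_le_one _ _) (hu x y) (norm_nonneg _) zero_le_one
  have h3 : |chi n x - chi n y| * ‖u y‖ ≤ 2 * ‖x - y‖ := by
    calc |chi n x - chi n y| * ‖u y‖ ≤ |chi n x - chi n y| * ‖y‖ :=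
          mul_le_mul_of_nonneg_left (hu0 y) (abs_nonneg _)
      _ = ‖y‖ * |chi n x - chi n y| := mul_comm _ _
      _ ≤ _ := mul_chi_sub_le n hxy
      _ ≤ 2 * |‖x‖ - ‖y‖| := mul_le_mul_of_nonneg_left (clp_lip _ _ _ _) (by norm_num)
      _ ≤ 2 * ‖x - y‖ := mul_le_mul_of_nonneg_left (abs_norm_sub_norm_le _ _) (by norm_num)
  linarith

/-- retraction onto the ball of `ℝ^k` -/
noncomputable def retr {k : ℕ} {R : ℝ} (hR : 0 ≤ R) (x : Fin k → ℝ) :
    ↥(Metric.closedBall (0 : Fin k → ℝ) R) :=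
  ⟨fun i => clp (-R) R (x i), by
    rw [mem_closedBall_zero_iff, pi_norm_le_iff_of_nonneg hR]
    intro i
    rw [Real.norm_eq_abs, abs_le]
    unfold clp
    exact ⟨le_max_left _ _, max_le (by linarith) (min_le_right _ _)⟩⟩

theorem retr_lip {k : ℕ} {R : ℝ} (hR : 0 ≤ R) (x y : Fin k → ℝ) :
    ‖(retr hR x : Fin k → ℝ) - retr hR y‖ ≤ ‖x - y‖ := by
  rw [pi_norm_le_iff_of_nonneg (norm_nonneg _)]
  intro i
  show |clp (-R) R (x i) - clp (-R) R (y i)| ≤ _
  exact (clp_lip _ _ _ _).trans (norm_le_pi_norm (x - y) i)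

theorem retr_eq {k : ℕ} {R : ℝ} (hR : 0 ≤ R) (x : ↥(Metric.closedBall (0 : Fin k → ℝ) R)) :
    retr hR x = x := by
  apply Subtype.ext
  funext i
  show clp (-R) R ((x : Fin k → ℝ) i) = (x : Fin k → ℝ) i
  have h1 := x.2
  rw [mem_closedBall_zero_iff, pi_norm_le_iff_of_nonneg hR] at h1
  have h2 := h1 i
  rw [Real.norm_eq_abs, abs_le] at h2
  unfold clp
  rw [min_eq_left h2.2, max_eq_right h2.1]

theorem retr_norm_le {k : ℕ} {R : ℝ} (hR : 0 ≤ R) (x : Fin k → ℝ) :
    ‖(retr hR x : Fin k → ℝ)‖ ≤ ‖x‖ := by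
  have h1 := retr_lip hR x 0
  have h2 : (retr hR (0 : Fin k → ℝ) : Fin k → ℝ) = 0 :=
    congrArg Subtype.val (retr_eq hR ⟨0, Metric.mem_closedBall_self hR⟩)
  rwa [h2, sub_zero, sub_zero] at h1

/-- existence of a free space in the form `IsFree` -/
theorem exists_isFree (M : Type) [MetricSpace M] (x0 : M) :
    ∃ (X : Type) (_ : NormedAddCommGroup X) (_ : NormedSpace ℝ X) (_ : CompleteSpace X)
      (δ : M → X), IsFree x0 δ := by
  obtain ⟨X, i1, i2, i3, δ, h1, h2, h3, h4⟩ := Pool.Agent.W693.LF.exists_free M x0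
  refine ⟨X, i1, i2, i3, δ, h1, fun x y => ?_, h3, fun K f hK hf hf0 => ?_⟩
  · have := h2.dist_le_mul x y
    rwa [NNReal.coe_one, one_mul, dist_eq_norm] at this
  · exact h4 f ⟨K, hK⟩ (LipschitzWith.of_dist_le_mul fun x y => by
      rw [Real.dist_eq]
      exact hf x y) hf0

theorem free_pi_dps {k : ℕ} {F : Type*} [NormedAddCommGroup F] [NormedSpace ℝ F]
    [CompleteSpace F] {δ : (Fin k → ℝ) → F} (h : IsFree (0 : Fin k → ℝ) δ) : DPS F := by
  have hR : ∀ n : ℕ, (0 : ℝ) ≤ 2 ^ (n + 1) := fun n => by positivity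
  -- factorisation of the cut-off operators
  have fac : ∀ n : ℕ, ∃ (X : Type) (_ : NormedAddCommGroup X) (_ : NormedSpace ℝ X) (_ : DPS X)
      (A : F →L[ℝ] X) (Bo : X →L[ℝ] F), ‖A‖ ≤ 3 ∧ ‖Bo‖ ≤ 1 ∧
        ∀ x, Bo (A (δ x)) = chi n x • δ x := by
    intro n
    obtain ⟨X, i1, i2, i3, e, he⟩ := exists_isFree ↥(Metric.closedBall (0 : Fin k → ℝ) (2 ^ (n + 1)))
      ⟨0, Metric.mem_closedBall_self (hR n)⟩
    have hX : DPS X := box_dps (isCompact_closedBall _ _) (convex_closedBall _ _) he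
      (retr (hR n)) (retr_lip (hR n)) (retr_eq (hR n))
    have hel : ∀ x y, ‖e (retr (hR n) x) - e (retr (hR n) y)‖ ≤ ‖x - y‖ := fun x y => by
      refine (he.lip _ _).trans ?_
      rw [Subtype.dist_eq, dist_eq_norm]
      exact retr_lip (hR n) x y
    have hen : ∀ x, ‖e (retr (hR n) x)‖ ≤ ‖x‖ := fun x => by
      have h1 := he.lip (retr (hR n) x) ⟨0, Metric.mem_closedBall_self (hR n)⟩
      rw [he.base, sub_zero, Subtype.dist_eq, dist_zero_right] at h1
      exact h1.trans (retr_norm_le (hR n) x)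
    obtain ⟨A, hA1, hA2⟩ := h.lift (fun x => chi n x • e (retr (hR n) x)) 3 (by norm_num)
      (fun x y => by
        rw [dist_eq_norm]
        exact cut_lip hel hen n x y) (by
        have : retr (hR n) (0 : Fin k → ℝ) = ⟨0, Metric.mem_closedBall_self (hR n)⟩ :=
          retr_eq (hR n) ⟨0, Metric.mem_closedBall_self (hR n)⟩
        rw [this, he.base, smul_zero])
    obtain ⟨Bo, hB1, hB2⟩ := he.lift (fun b => δ b) 1 zero_le_one (fun x y => by
      rw [one_mul, Subtype.dist_eq]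
      exact h.lip _ _) h.base
    refine ⟨X, i1, i2, hX, A, Bo, hA2, hB2, fun x => ?_⟩
    rw [hA1, map_smul, hB1]
    rcases le_total ‖x‖ (2 ^ (n + 1)) with h1 | h1
    · have : retr (hR n) x = ⟨x, mem_closedBall_zero_iff.2 h1⟩ :=
        retr_eq (hR n) ⟨x, mem_closedBall_zero_iff.2 h1⟩
      rw [this]
    · rw [chi_eq_zero h1, zero_smul, zero_smul]
  choose X i1 i2 hX A Bo hA hB hAB using fac
  let D : ℕ → (F →L[ℝ] F) := fun n => (Bo n).comp (A n)
  have hDδ : ∀ n x, D n (δ x) = chi n x • δ x := hAB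
  have hDn : ∀ n, ‖D n‖ ≤ 3 := fun n => by
    refine (ContinuousLinearMap.opNorm_comp_le _ _).trans ?_
    calc ‖Bo n‖ * ‖A n‖ ≤ 1 * 3 := mul_le_mul (hB n) (hA n) (norm_nonneg _) zero_le_one
      _ = 3 := by norm_num
  have hDspan : ∀ w ∈ Submodule.span ℝ (Set.range δ), Tendsto (fun n => D n w) atTop (𝓝 w) := by
    intro w hw
    induction hw using Submodule.span_induction with
    | mem v hv =>
      obtain ⟨x, rfl⟩ := hv
      have h1 : ∀ᶠ n : ℕ in atTop, D n (δ x) = δ x := by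
        have h2 : Tendsto (fun n : ℕ => (2 : ℝ) ^ n) atTop atTop :=
          tendsto_pow_atTop_atTop_of_one_lt (by norm_num)
        filter_upwards [h2.eventually_ge_atTop ‖x‖] with n hn
        rw [hDδ, chi_eq_one hn, one_smul]
      exact tendsto_const_nhds.congr' (h1.mono fun n hn => hn.symm)
    | zero => simp
    | add v w _ _ hv hw =>
      simp only [map_add]
      exact hv.add hw
    | smul c v _ hv =>
      simp only [map_smul]
      exact hv.const_smul c
  have hD : ∀ z, Tendsto (fun n => D n z) atTop (𝓝 z) := by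
    intro z
    rw [Metric.tendsto_atTop]
    intro ε hε
    obtain ⟨w, hw, hzw⟩ := Metric.mem_closure_iff.1 (h.dense z) (ε / 8) (by positivity)
    obtain ⟨N, hN⟩ := (Metric.tendsto_atTop.1 (hDspan w hw)) (ε / 4) (by positivity)
    refine ⟨N, fun n hn => ?_⟩
    have h1 := hN n hn
    rw [dist_eq_norm] at h1 hzw ⊢
    have h2 : D n z - z = D n (z - w) + (D n w - w) - (z - w) := by
      rw [map_sub]; abel
    have h3 : ‖D n (z - w)‖ ≤ 3 * ‖z - w‖ := (D n).le_of_opNorm_le (hDn n) _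
    rw [h2]
    calc _ ≤ ‖D n (z - w)‖ + ‖D n w - w‖ + ‖z - w‖ :=
          (norm_sub_le _ _).trans (add_le_add (norm_add_le _ _) le_rfl)
      _ < ε := by linarith
  refine gliding D hD 5 ?_ ?_
  · intro ν f K hν hf J z
    have hK : 0 ≤ K := (norm_nonneg _).trans (hf 0)
    set hh : ℕ → (F →L[ℝ] ℝ) := fun i => (f i).comp (D (ν (i + 1)) - D (ν i)) with hhh
    set θ : ℕ → ℝ := fun j => if 0 ≤ hh j z then 1 else -1 with hθ
    have hθ1 : ∀ j, |θ j| ≤ 1 := fun j => by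
      rw [hθ]
      dsimp only
      split_ifs <;> simp
    have hθ2 : ∀ j, θ j * hh j z = |hh j z| := fun j => by
      rw [hθ]
      dsimp only
      split_ifs with h
      · rw [abs_of_nonneg h, one_mul]
      · rw [abs_of_neg (not_le.1 h)]; ring
    have hL : ‖∑ i ∈ J, θ i • hh i‖ ≤ 5 * K := by
      refine norm_le_of_lip h _ (by positivity) fun x y => ?_
      rw [dist_eq_norm]
      wlog hxy : ‖y‖ ≤ ‖x‖ generalizing x y
      · rw [abs_sub_comm, norm_sub_rev]
        exact this y x (le_of_not_ge hxy)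
      have hδn : ‖δ y‖ ≤ ‖y‖ := by
        have := h.lip y 0
        rwa [h.base, sub_zero, dist_zero_right] at this
      have e1 : (∑ i ∈ J, θ i • hh i) (δ x) - (∑ i ∈ J, θ i • hh i) (δ y) =
          ∑ i ∈ J, θ i * (hh i (δ x) - hh i (δ y)) := by
        rw [sum_apply, sum_apply, ← Finset.sum_sub_distrib]
        exact Finset.sum_congr rfl fun i _ => by
          rw [smul_apply, smul_apply, smul_eq_mul, smul_eq_mul]; ring
      have e2 : ∀ i, |hh i (δ x) - hh i (δ y)| ≤ K * ((chi (ν (i + 1)) x - chi (ν i) x) * ‖x - y‖ +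
          (2 * |clp (2 ^ ν (i + 1)) (2 ^ (ν (i + 1) + 1)) ‖x‖ -
            clp (2 ^ ν (i + 1)) (2 ^ (ν (i + 1) + 1)) ‖y‖| +
          2 * |clp (2 ^ ν i) (2 ^ (ν i + 1)) ‖x‖ - clp (2 ^ ν i) (2 ^ (ν i + 1)) ‖y‖|)) := by
        intro i
        have e3 : hh i (δ x) - hh i (δ y) = f i ((chi (ν (i + 1)) x - chi (ν i) x) • (δ x - δ y) +
            ((chi (ν (i + 1)) x - chi (ν (i + 1)) y) - (chi (ν i) x - chi (ν i) y)) • δ y) := by
          show f i (D (ν (i + 1)) (δ x) - D (ν i) (δ x)) - f i (D (ν (i + 1)) (δ y) - D (ν i) (δ y))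
            = _
          rw [← map_sub, hDδ, hDδ, hDδ, hDδ]
          congr 1
          module
        rw [e3]
        refine ((f i).le_opNorm _).trans (mul_le_mul (hf i) ?_ (norm_nonneg _) hK)
        refine (norm_add_le _ _).trans (add_le_add ?_ ?_)
        · rw [norm_smul, Real.norm_of_nonneg (sub_nonneg.2 (chi_mono x (hν (Nat.lt_succ_self i)).le))]
          have := h.lip x y
          rw [dist_eq_norm] at this
          exact mul_le_mul_of_nonneg_left this
            (sub_nonneg.2 (chi_mono x (hν (Nat.lt_succ_self i)).le))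
        · rw [norm_smul, Real.norm_eq_abs]
          have e4 := mul_chi_sub_le (ν (i + 1)) hxy
          have e5 := mul_chi_sub_le (ν i) hxy
          calc |chi (ν (i + 1)) x - chi (ν (i + 1)) y - (chi (ν i) x - chi (ν i) y)| * ‖δ y‖
              ≤ (|chi (ν (i + 1)) x - chi (ν (i + 1)) y| + |chi (ν i) x - chi (ν i) y|) * ‖y‖ :=
                mul_le_mul (abs_sub _ _) hδn (norm_nonneg _) (by positivity)
            _ = ‖y‖ * |chi (ν (i + 1)) x - chi (ν (i + 1)) y| +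
                ‖y‖ * |chi (ν i) x - chi (ν i) y| := by ring
            _ ≤ _ := add_le_add e4 e5
      have hν' : Function.Injective fun i => ν (i + 1) := hν.injective.comp (add_left_injective 1)
      have e6 := sum_abs_clp_le ‖y‖ ‖x‖ (fun i => ν (i + 1)) hν' J
      have e7 := sum_abs_clp_le ‖y‖ ‖x‖ ν hν.injective J
      have e8 : |‖x‖ - ‖y‖| ≤ ‖x - y‖ := abs_norm_sub_norm_le _ _
      have e9 : ∑ i ∈ J, (chi (ν (i + 1)) x - chi (ν i) x) ≤ 1 := by
        obtain ⟨n, hn⟩ : ∃ n, J ⊆ Finset.range n := J.exists_nat_subset_range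
        calc _ ≤ ∑ i ∈ Finset.range n, (chi (ν (i + 1)) x - chi (ν i) x) :=
              Finset.sum_le_sum_of_subset_of_nonneg hn fun i _ _ =>
                sub_nonneg.2 (chi_mono x (hν (Nat.lt_succ_self i)).le)
          _ = chi (ν n) x - chi (ν 0) x := Finset.sum_range_sub (fun i => chi (ν i) x) n
          _ ≤ 1 := by linarith [chi_le_one (ν n) x, chi_nonneg (ν 0) x]
      rw [e1]
      calc |∑ i ∈ J, θ i * (hh i (δ x) - hh i (δ y))|
          ≤ ∑ i ∈ J, |θ i * (hh i (δ x) - hh i (δ y))| := Finset.abs_sum_le_sum_abs _ _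
        _ ≤ ∑ i ∈ J, K * ((chi (ν (i + 1)) x - chi (ν i) x) * ‖x - y‖ +
          (2 * |clp (2 ^ ν (i + 1)) (2 ^ (ν (i + 1) + 1)) ‖x‖ -
            clp (2 ^ ν (i + 1)) (2 ^ (ν (i + 1) + 1)) ‖y‖| +
          2 * |clp (2 ^ ν i) (2 ^ (ν i + 1)) ‖x‖ - clp (2 ^ ν i) (2 ^ (ν i + 1)) ‖y‖|)) := by
            refine Finset.sum_le_sum fun i _ => ?_
            rw [abs_mul]
            calc |θ i| * |hh i (δ x) - hh i (δ y)| ≤ 1 * |hh i (δ x) - hh i (δ y)| :=
                  mul_le_mul_of_nonneg_right (hθ1 i) (abs_nonneg _)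
              _ ≤ _ := by rw [one_mul]; exact e2 i
        _ = K * ((∑ i ∈ J, (chi (ν (i + 1)) x - chi (ν i) x)) * ‖x - y‖ +
            (2 * ∑ i ∈ J, |clp (2 ^ ν (i + 1)) (2 ^ (ν (i + 1) + 1)) ‖x‖ -
              clp (2 ^ ν (i + 1)) (2 ^ (ν (i + 1) + 1)) ‖y‖| +
            2 * ∑ i ∈ J, |clp (2 ^ ν i) (2 ^ (ν i + 1)) ‖x‖ -
              clp (2 ^ ν i) (2 ^ (ν i + 1)) ‖y‖|)) := by
            rw [← Finset.mul_sum, Finset.sum_add_distrib, Finset.sum_add_distrib, Finset.sum_mul,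
              Finset.mul_sum, Finset.mul_sum]
        _ ≤ K * (1 * ‖x - y‖ + (2 * ‖x - y‖ + 2 * ‖x - y‖)) := by
            refine mul_le_mul_of_nonneg_left ?_ hK
            refine add_le_add (mul_le_mul_of_nonneg_right e9 (norm_nonneg _)) (add_le_add ?_ ?_)
            · exact mul_le_mul_of_nonneg_left (e6.trans e8) (by norm_num)
            · exact mul_le_mul_of_nonneg_left (e7.trans e8) (by norm_num)
        _ = 5 * K * ‖x - y‖ := by ring
    calc ∑ i ∈ J, |f i (D (ν (i + 1)) z - D (ν i) z)| = (∑ i ∈ J, θ i • hh i) z := by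
          rw [sum_apply]
          exact Finset.sum_congr rfl fun j _ => by
            rw [smul_apply, smul_eq_mul, hθ2]
            rfl
      _ ≤ ‖∑ i ∈ J, θ i • hh i‖ * ‖z‖ :=
          (le_abs_self _).trans ((∑ i ∈ J, θ i • hh i).le_opNorm z)
      _ ≤ 5 * K * ‖z‖ := mul_le_mul_of_nonneg_right hL (norm_nonneg z)
  · intro n m f δ' hm hf hδ'
    exact (hX n).factor (A n) (Bo n) m f δ' hm hf hδ'

/-- `DPS` for the Lipschitz-free space of a finite-dimensional normed space -/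
theorem free_findim_dps {E : Type*} [NormedAddCommGroup E] [NormedSpace ℝ E]
    [FiniteDimensional ℝ E] {F : Type*} [NormedAddCommGroup F] [NormedSpace ℝ F]
    [CompleteSpace F] {x0 : E} {δ : E → F} (h : IsFree x0 δ) : DPS F := by
  obtain ⟨X, i1, i2, i3, e, he⟩ := exists_isFree (Fin (Module.finrank ℝ E) → ℝ) 0
  have hX : DPS X := free_pi_dps he
  let T : E ≃L[ℝ] (Fin (Module.finrank ℝ E) → ℝ) := ContinuousLinearEquiv.ofFinrankEq (by simp)
  obtain ⟨S, R, hRS⟩ := Pool.Agent.TH326.Free.exists_compl h he (fun x => T x) (fun y => T.symm y)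
    ‖T.toContinuousLinearMap‖ ‖T.symm.toContinuousLinearMap‖ (norm_nonneg _) (norm_nonneg _)
    (fun x y => by
      rw [dist_eq_norm, dist_eq_norm, ← map_sub]
      exact T.toContinuousLinearMap.le_opNorm _)
    (fun x y => by
      rw [dist_eq_norm, dist_eq_norm, ← map_sub]
      exact T.symm.toContinuousLinearMap.le_opNorm _)
    (fun x => T.symm_apply_apply x)
  exact hX.of_factor S R hRS

end Pool.Agent.X205.CE
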